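import Mathlib

/-!
# Binary cubic forms, the tangent map of `w³ = F(S, T)` and a 2-adic iteration (helper6)
-/

set_option autoImplicit false

namespace Pool.Agent.D0H6.TC

section Cov

variable {R : Type*} [CommRing R]

/-- the binary cubic form -/
def cf (a b c d S T : R) : R := a * S ^ 3 + b * S ^ 2 * T + c * S * T ^ 2 + d * T ^ 3
/-- its first partial derivative -/
def cfS (a b c d S T : R) : R := 3 * a * S ^ 2 + 2 * b * S * T + c * T ^ 2
/-- its second partial derivative -/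
def cfT (a b c d S T : R) : R := b * S ^ 2 + 2 * c * S * T + 3 * d * T ^ 2
/-- the Hessian covariant -/
def he (a b c d S T : R) : R :=
  (b ^ 2 - 3 * a * c) * S ^ 2 + (b * c - 9 * a * d) * S * T + (c ^ 2 - 3 * b * d) * T ^ 2
/-- the cubic covariant -/
def ja (a b c d S T : R) : R :=
  (2 * b ^ 3 - 9 * a * b * c + 27 * a ^ 2 * d) * S ^ 3 +
    3 * (b ^ 2 * c - 6 * a * c ^ 2 + 9 * a * b * d) * S ^ 2 * T -
    3 * (b * c ^ 2 - 6 * b ^ 2 * d + 9 * a * c * d) * S * T ^ 2 -
    (2 * c ^ 3 - 9 * b * c * d + 27 * a * d ^ 2) * T ^ 3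
/-- the discriminant -/
def ds (a b c d : R) : R :=
  b ^ 2 * c ^ 2 - 4 * a * c ^ 3 - 4 * b ^ 3 * d - 27 * a ^ 2 * d ^ 2 + 18 * a * b * c * d

variable (a b c d S T : R)

lemma syz : ja a b c d S T ^ 2 + 27 * ds a b c d * cf a b c d S T ^ 2 =
    4 * he a b c d S T ^ 3 := by
  unfold ja ds cf he
  ring

lemma cf_move (x y : R) : cf a b c d (x * S - y * cfT a b c d S T) (x * T + y * cfS a b c d S T) =
    cf a b c d S T * (x ^ 3 - 3 * he a b c d S T * x * y ^ 2 + ja a b c d S T * y ^ 3) := by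
  unfold ja cf he cfS cfT
  ring

lemma he_move (x y : R) : he a b c d (x * S - y * cfT a b c d S T) (x * T + y * cfS a b c d S T) =
    x ^ 2 * he a b c d S T - x * y * ja a b c d S T + y ^ 2 * he a b c d S T ^ 2 := by
  unfold ja he cfS cfT
  ring

/-- the tangent map, first coordinate -/
def tS : R := ja a b c d S T * S - 3 * he a b c d S T * cfT a b c d S T
/-- the tangent map, second coordinate -/
def tT : R := ja a b c d S T * T + 3 * he a b c d S T * cfS a b c d S T

lemma cf_tan : cf a b c d (tS a b c d S T) (tT a b c d S T) =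
    cf a b c d S T * ja a b c d S T ^ 3 := by
  unfold tS tT
  rw [cf_move]
  ring

lemma he_tan : he a b c d (tS a b c d S T) (tT a b c d S T) =
    he a b c d S T * (9 * he a b c d S T ^ 3 - 2 * ja a b c d S T ^ 2) := by
  unfold tS tT
  rw [he_move]
  ring

end Cov

/-! ### The iteration -/

/-- the map induced by the doubling on `y² = x³ + k` in the coordinate `x³ / k` -/
def dbl (r : ℚ) : ℚ := r * (r - 8) ^ 3 / (64 * (r + 1) ^ 3)

/-- not a torsion value -/
structure Nt (r : ℚ) : Prop where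
  z : r ≠ 0
  m : r ≠ -1
  e : r ≠ 8
  f : r ≠ -4

lemma root_int {r : ℚ} (p q s t : ℤ) (h : r ^ 4 + p * r ^ 3 + q * r ^ 2 + s * r + t = 0) :
    ∃ n : ℤ, r = n ∧ n ∣ t := by
  have h1 : IsIntegral ℤ r := by
    refine ⟨Polynomial.X ^ 4 + Polynomial.C p * Polynomial.X ^ 3 + Polynomial.C q * Polynomial.X ^ 2
      + Polynomial.C s * Polynomial.X + Polynomial.C t, ?_, ?_⟩
    · monicity!
    · simp only [Polynomial.eval₂_add, Polynomial.eval₂_mul, Polynomial.eval₂_C, Polynomial.eval₂_X,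
        Polynomial.eval₂_pow, algebraMap_int_eq, Int.coe_castRingHom]
      exact h
  obtain ⟨n, hn⟩ := IsIntegrallyClosed.isIntegral_iff.1 h1
  refine ⟨n, by rw [← hn]; simp, ?_⟩
  have hr : r = n := by rw [← hn]; simp
  rw [hr] at h
  have h2 : n ^ 4 + p * n ^ 3 + q * n ^ 2 + s * n + t = 0 := by exact_mod_cast h
  exact ⟨-(n ^ 3 + p * n ^ 2 + q * n + s), by linear_combination h2⟩

lemma root_int3 {r : ℚ} (q s t : ℤ) (h : r ^ 3 + q * r ^ 2 + s * r + t = 0) :
    ∃ n : ℤ, r = n ∧ n ∣ t ∧ n ^ 3 + q * n ^ 2 + s * n + t = 0 := by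
  have h1 : IsIntegral ℤ r := by
    refine ⟨Polynomial.X ^ 3 + Polynomial.C q * Polynomial.X ^ 2
      + Polynomial.C s * Polynomial.X + Polynomial.C t, ?_, ?_⟩
    · monicity!
    · simp only [Polynomial.eval₂_add, Polynomial.eval₂_mul, Polynomial.eval₂_C, Polynomial.eval₂_X,
        Polynomial.eval₂_pow, algebraMap_int_eq, Int.coe_castRingHom]
      exact h
  obtain ⟨n, hn⟩ := IsIntegrallyClosed.isIntegral_iff.1 h1
  have hr : r = n := by rw [← hn]; simp
  rw [hr] at h
  have h2 : n ^ 3 + q * n ^ 2 + s * n + t = 0 := by exact_mod_cast h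
  exact ⟨n, hr, ⟨-(n ^ 2 + q * n + s), by linear_combination h2⟩, h2⟩

end Pool.Agent.D0H6.TC
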