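import Pool.Agent.D0H6.TC.Inf
import Pool.Agent.Y718.RealDen

/-!
# `w³ = q(t)`: infinitely many rational points are dense (helper6)
-/

set_option autoImplicit false
set_option linter.unusedSimpArgs false

namespace Pool.Agent.D0H6.TC

open Set Filter Topology Pool.Agent.TH729.CC Pool.Agent.Y718

/-- a binary cubic form with nonzero discriminant has no double zero -/
lemma grad_ne {K : Type*} [Field K] (h3 : (3 : K) ≠ 0) {a b c d S T : K} (hD : ds a b c d ≠ 0)
    (h : S ≠ 0 ∨ T ≠ 0) (h1 : cfS a b c d S T = 0) (h2 : cfT a b c d S T = 0) : False := by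
  unfold cfS at h1
  unfold cfT at h2
  by_cases hS : S = 0
  · have hT : T ≠ 0 := h.resolve_left (fun h => h hS)
    rw [hS] at h1 h2
    have e1 : c = 0 := by
      have : c * T ^ 2 = 0 := by linear_combination h1
      exact (mul_eq_zero.1 this).resolve_right (pow_ne_zero _ hT)
    have e2 : d = 0 := by
      have : 3 * d * T ^ 2 = 0 := by linear_combination h2
      exact (mul_eq_zero.1 ((mul_eq_zero.1 this).resolve_right (pow_ne_zero _ hT))).resolve_left h3
    apply hD
    unfold ds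
    rw [e1, e2]
    ring
  by_cases hT : T = 0
  · rw [hT] at h1 h2
    have e1 : b = 0 := by
      have : b * S ^ 2 = 0 := by linear_combination h2
      exact (mul_eq_zero.1 this).resolve_right (pow_ne_zero _ hS)
    have e2 : a = 0 := by
      have : 3 * a * S ^ 2 = 0 := by linear_combination h1
      exact (mul_eq_zero.1 ((mul_eq_zero.1 this).resolve_right (pow_ne_zero _ hS))).resolve_left h3
    apply hD
    unfold ds
    rw [e1, e2]
    ring
  -- the general case
  have l1 : 2 * (b ^ 2 - 3 * a * c) * S + (b * c - 9 * a * d) * T = 0 := by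
    have : T * (2 * (b ^ 2 - 3 * a * c) * S + (b * c - 9 * a * d) * T) = 0 := by
      linear_combination b * h1 - 3 * a * h2
    exact (mul_eq_zero.1 this).resolve_left hT
  have l2 : -(b * c - 9 * a * d) * S + 2 * (3 * b * d - c ^ 2) * T = 0 := by
    have : S * (-(b * c - 9 * a * d) * S + 2 * (3 * b * d - c ^ 2) * T) = 0 := by
      linear_combination 3 * d * h1 - c * h2
    exact (mul_eq_zero.1 this).resolve_left hS
  have l3 : 3 * ds a b c d * S = 0 := by
    unfold ds
    linear_combination -(2 * (3 * b * d - c ^ 2)) * l1 + (b * c - 9 * a * d) * l2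
  rcases mul_eq_zero.1 l3 with h | h
  · exact hD ((mul_eq_zero.1 h).resolve_left h3)
  · exact hS h

lemma ds_cube {K : Type*} [Field K] {a b c d β γ : K} (h0 : a = γ ^ 3) (h1 : b = 3 * β * γ ^ 2)
    (h2 : c = 3 * β ^ 2 * γ) (h3 : d = β ^ 3) : ds a b c d = 0 := by
  unfold ds
  rw [h0, h1, h2, h3]
  ring

/-- the cubic form `w³ - F(z, t)` in the coordinates `(t, w, z)` -/
noncomputable def FT (a b c d : ℚ) : Tri 3 :=
  (((Tri.prod cs cs cs).add ((Tri.prod cz cz cz).smul (-(a : ℝ)))).add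
    ((Tri.prod cx cz cz).smul (-(b : ℝ)))).add
    (((Tri.prod cx cx cz).smul (-(c : ℝ))).add ((Tri.prod cx cx cx).smul (-(d : ℝ))))

variable (a b c d : ℚ)

lemma FT_apply (v : E 3) : (FT a b c d).f v v v =
    v 1 ^ 3 - (a * v 2 ^ 3 + b * v 0 * v 2 ^ 2 + c * v 0 ^ 2 * v 2 + d * v 0 ^ 3) := by
  simp only [FT, Tri.add, Tri.smul, Tri.prod, LinearMap.smul_apply, LinearMap.add_apply, pr3_apply,
    smul_eq_mul, LinearMap.proj_apply]
  ring

lemma FT_pol (v e : E 3) : (FT a b c d).f v v e = v 1 ^ 2 * e 1 -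
    (1 / 3) * (cfT (a : ℝ) b c d (v 2) (v 0) * e 0 + cfS (a : ℝ) b c d (v 2) (v 0) * e 2) := by
  simp only [FT, Tri.add, Tri.smul, Tri.prod, LinearMap.smul_apply, LinearMap.add_apply, pr3_apply,
    smul_eq_mul, LinearMap.proj_apply, cfS, cfT]
  ring

lemma FT_rat : Rat3 (FT a b c d) QR := by
  have hpr : ∀ i : Fin 3, RL QR (LinearMap.proj i : E 3 →ₗ[ℝ] ℝ) := fun i v hv => hv i
  intro x y z hx hy hz
  have hm : ∀ {p q r : E 3 →ₗ[ℝ] ℝ} (t : ℝ), RL QR p → RL QR q → RL QR r → t ∈ QR →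
      ((Tri.prod p q r).smul t).f x y z ∈ QR := by
    intro p q r t hp hq hr ht
    exact Subfield.mul_mem _ ht (Tri.prod_rat hp hq hr x y z hx hy hz)
  simp only [FT, Tri.add, LinearMap.add_apply]
  refine Subfield.add_mem _ (Subfield.add_mem _ (Subfield.add_mem _ ?_ ?_) ?_)
    (Subfield.add_mem _ ?_ ?_)
  · exact Tri.prod_rat (hpr 1) (hpr 1) (hpr 1) x y z hx hy hz
  · exact hm _ (hpr 2) (hpr 2) (hpr 2) (Subfield.neg_mem _ (mem_QR _))
  · exact hm _ (hpr 0) (hpr 2) (hpr 2) (Subfield.neg_mem _ (mem_QR _))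
  · exact hm _ (hpr 0) (hpr 0) (hpr 2) (Subfield.neg_mem _ (mem_QR _))
  · exact hm _ (hpr 0) (hpr 0) (hpr 0) (Subfield.neg_mem _ (mem_QR _))

variable {a b c d}

lemma FT_NH (hD : ds a b c d ≠ 0) : NH (FT a b c d) QR := by
  intro α hα
  by_contra hcon
  push Not at hcon
  obtain ⟨a0, ha0⟩ := of_QR (α 0).2
  obtain ⟨a1, ha1⟩ := of_QR (α 1).2
  obtain ⟨a2, ha2⟩ := of_QR (α 2).2
  have hcon' : ∀ x s z : ℚ, a0 * x + a1 * s + a2 * z = 0 →
      s ^ 3 - (a * z ^ 3 + b * x * z ^ 2 + c * x ^ 2 * z + d * x ^ 3) = 0 := by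
    intro x s z hv
    have h1 := hcon ![(x : ℝ), (s : ℝ), (z : ℝ)] ?_ ?_
    · rw [FT_apply] at h1
      simp at h1
      exact_mod_cast h1
    · intro i
      fin_cases i <;> simp
    · rw [Fin.sum_univ_three, ← ha0, ← ha1, ← ha2]
      simp
      exact_mod_cast hv
  by_cases h1 : a1 = 0
  · have e0 := hcon' a2 0 (-a0) (by rw [h1]; ring)
    have e1 := hcon' a2 1 (-a0) (by rw [h1]; ring)
    linarith
  · have key : ∀ x z : ℚ, ((-a0 / a1) * x + (-a2 / a1) * z) ^ 3 =
        a * z ^ 3 + b * x * z ^ 2 + c * x ^ 2 * z + d * x ^ 3 := by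
      intro x z
      have := hcon' x ((-a0 / a1) * x + (-a2 / a1) * z) z (by field_simp; ring)
      linarith
    set β := -a0 / a1
    set γ := -a2 / a1
    have k1 := key 0 1
    have k2 := key 1 0
    have k3 := key 1 1
    have k4 := key 1 (-1)
    refine hD (ds_cube (β := β) (γ := γ) ?_ ?_ ?_ ?_)
    · linear_combination -k1
    · linear_combination k2 - (k3 + k4) / 2
    · linear_combination k1 - (k3 - k4) / 2
    · linear_combination -k2

lemma FT_NSg (hD : ds a b c d ≠ 0) : NSg (FT a b c d) QR := by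
  intro P _ hP0
  by_contra hcon
  push Not at hcon
  have e0 := hcon ![1, 0, 0]
  have e1 := hcon ![0, 1, 0]
  have e2 := hcon ![0, 0, 1]
  rw [FT_pol] at e0 e1 e2
  simp only [Matrix.cons_val_zero, Matrix.cons_val_one, Matrix.cons_val, mul_one, mul_zero,
    add_zero, zero_add, sub_zero, zero_sub] at e0 e1 e2
  have g0 : cfT (a : ℝ) b c d (P 2) (P 0) = 0 := by linarith
  have g2 : cfS (a : ℝ) b c d (P 2) (P 0) = 0 := by linarith
  have g1 : P 1 = 0 := by
    have : P 1 ^ 2 = 0 := by linarith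
    exact pow_eq_zero_iff (by norm_num) |>.1 this
  have hD' : ds (a : ℝ) b c d ≠ 0 := by
    intro h
    apply hD
    have : ((ds a b c d : ℚ) : ℝ) = 0 := by
      rw [← h]
      unfold ds
      push_cast
      ring
    exact_mod_cast this
  refine grad_ne (by norm_num) hD' ?_ g2 g0
  by_contra hcon2
  push Not at hcon2
  apply hP0
  funext i
  fin_cases i
  · simpa using hcon2.2
  · simpa using g1
  · simpa using hcon2.1

lemma cube_of_inf {β γ : ℚ} {T : Set ℚ} (hT : T.Infinite)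
    (h : ∀ t ∈ T, (β * t + γ) ^ 3 = a + b * t + c * t ^ 2 + d * t ^ 3) : ds a b c d = 0 := by
  obtain ⟨h0, h1, h2, h3, -⟩ := poly4 (c0 := γ ^ 3 - a) (c1 := 3 * β * γ ^ 2 - b)
    (c2 := 3 * β ^ 2 * γ - c) (c3 := β ^ 3 - d) (c4 := 0) hT
    (fun t ht => by linear_combination h t ht)
  exact ds_cube (β := β) (γ := γ) (by linarith) (by linarith) (by linarith) (by linarith)

theorem FT_not_cov (hD : ds a b c d ≠ 0) (hinf : (cub a b c d).Infinite) :
    ¬ Cov (FT a b c d) QR := by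
  rintro ⟨L, hL, hL0, hLc⟩
  have hch : ∀ t ∈ cub a b c d, ∃ α ∈ L, ∃ s : ℚ,
      s ^ 3 = a + b * t + c * t ^ 2 + d * t ^ 3 ∧
      (α 0 : ℝ) * t + (α 1 : ℝ) * s + (α 2 : ℝ) = 0 := by
    rintro t ⟨w, hw⟩
    obtain ⟨α, hαL, hα⟩ := hLc ![(t : ℝ), (w : ℝ), 1] (by
      refine ⟨?_, ?_⟩
      · intro i
        fin_cases i
        · simp
        · exact mem_QR _
        · exact ⟨1, by simp⟩
      · rw [FT_apply]
        simp only [Matrix.cons_val_zero, Matrix.cons_val_one, Matrix.cons_val, mul_one, one_pow]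
        have hwR : (w : ℝ) ^ 3 = a + b * t + c * t ^ 2 + d * t ^ 3 := by
          exact_mod_cast hw
        linear_combination hwR)
    refine ⟨α, hαL, w, hw, ?_⟩
    rw [Fin.sum_univ_three] at hα
    simpa using hα
  have hch' : ∀ t : ℚ, ∃ α : Fin 3 → QR, t ∈ cub a b c d → α ∈ L ∧ ∃ s : ℚ,
      s ^ 3 = a + b * t + c * t ^ 2 + d * t ^ 3 ∧
      (α 0 : ℝ) * t + (α 1 : ℝ) * s + (α 2 : ℝ) = 0 := by
    intro t
    by_cases ht : t ∈ cub a b c d
    · obtain ⟨α, hα, h⟩ := hch t ht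
      exact ⟨α, fun _ => ⟨hα, h⟩⟩
    · exact ⟨0, fun h => absurd h ht⟩
  choose α hα using hch'
  obtain ⟨l, hl, hlinf⟩ : ∃ l ∈ L, ((cub a b c d ∩ α ⁻¹' {l})).Infinite := by
    by_contra hcon
    push Not at hcon
    apply hinf
    refine (Set.Finite.biUnion hL (fun l hl => hcon l hl)).subset ?_
    intro t ht
    simp only [Set.mem_iUnion]
    exact ⟨α t, (hα t ht).1, ht, rfl⟩
  obtain ⟨a0, ha0⟩ := of_QR (l 0).2
  obtain ⟨a1, ha1⟩ := of_QR (l 1).2
  obtain ⟨a2, ha2⟩ := of_QR (l 2).2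
  have hT : ∀ t ∈ (cub a b c d ∩ α ⁻¹' {l}), ∃ s : ℚ,
      s ^ 3 = a + b * t + c * t ^ 2 + d * t ^ 3 ∧ a0 * t + a1 * s + a2 = 0 := by
    rintro t ⟨ht, hat⟩
    obtain ⟨-, s, h1, h2⟩ := hα t ht
    have hat' : α t = l := hat
    rw [hat', ← ha0, ← ha1, ← ha2] at h2
    exact ⟨s, h1, by exact_mod_cast h2⟩
  by_cases h1 : a1 = 0
  · obtain ⟨h2, h0, -⟩ := poly4 (c0 := a2) (c1 := a0) (c2 := 0) (c3 := 0) (c4 := 0) hlinf (by
      intro t ht
      obtain ⟨s, -, h3⟩ := hT t ht
      rw [h1] at h3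
      linear_combination h3)
    apply hL0 l hl
    funext i
    apply Subtype.ext
    fin_cases i
    · simp only [Fin.zero_eta]
      rw [← ha0, h0]; simp
    · simp only [Fin.mk_one]
      rw [← ha1, h1]; simp
    · simp only [Fin.reduceFinMk]
      rw [← ha2, h2]; simp
  · refine hD (cube_of_inf (β := -a0 / a1) (γ := -a2 / a1) hlinf ?_)
    intro t ht
    obtain ⟨s, h2, h3⟩ := hT t ht
    have : s = (-a0 / a1) * t + (-a2 / a1) := by
      field_simp
      linear_combination h3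
    rw [← h2, this]

/-- there is an interior point -/
theorem FT_int (hD : ds a b c d ≠ 0) (hinf : (cub a b c d).Infinite) :
    ∃ R, Int' (FT a b c d) QR R := by
  by_contra hcon
  push Not at hcon
  exact FT_not_cov hD hinf (thmB ⟨FT_rat a b c d, hcon⟩ (FT_NH hD) (FT_NSg hD))

lemma cube_surj : Function.Surjective fun x : ℝ => x ^ 3 := by
  have key : ∀ y : ℝ, 0 ≤ y → ∃ x : ℝ, x ^ 3 = y := by
    intro y hy
    refine ⟨y ^ (1 / 3 : ℝ), ?_⟩
    rw [← Real.rpow_natCast, ← Real.rpow_mul hy]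
    norm_num
  intro y
  rcases le_total 0 y with hy | hy
  · exact key y hy
  · obtain ⟨x, hx⟩ := key (-y) (by linarith)
    exact ⟨-x, by simp only; rw [Odd.neg_pow (by decide), hx]; ring⟩

/-- the real cube root -/
noncomputable def cbrt : ℝ ≃o ℝ :=
  (StrictMono.orderIsoOfSurjective (fun x : ℝ => x ^ 3) (Odd.strictMono_pow (by decide))
    cube_surj).symm

lemma cbrt_pow (y : ℝ) : cbrt y ^ 3 = y :=
  (StrictMono.orderIsoOfSurjective (fun x : ℝ => x ^ 3) (Odd.strictMono_pow (by decide))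
    cube_surj).apply_symm_apply y

lemma cbrt_cont : Continuous cbrt := cbrt.continuous

lemma eq_cbrt {x y : ℝ} (h : x ^ 3 = y) : x = cbrt y := by
  have h1 := cbrt_pow y
  rw [← h1] at h
  exact (Odd.strictMono_pow (by decide : Odd 3)).injective h

/-- the closure of the good parameters is a neighbourhood of each of its points -/
theorem cub_open (hD : ds a b c d ≠ 0) (hinf : (cub a b c d).Infinite) {x : ℝ}
    (hx : x ∈ closure ((fun t : ℚ => (t : ℝ)) '' cub a b c d)) :
    closure ((fun t : ℚ => (t : ℝ)) '' cub a b c d) ∈ 𝓝 x := by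
  set S : Set ℝ := (fun t : ℚ => (t : ℝ)) '' cub a b c d with hS
  set Q : ℝ → ℝ := fun x => (a : ℝ) + b * x + c * x ^ 2 + d * x ^ 3 with hQ
  have hQc : Continuous Q := by fun_prop
  set P : ℝ → E 3 := fun x => ![x, cbrt (Q x), 1] with hP
  have hPc : Continuous P := by
    refine continuous_pi fun i => ?_
    fin_cases i
    · exact continuous_id
    · exact cbrt_cont.comp hQc
    · exact continuous_const
  have hPz : ∀ y, (FT a b c d).f (P y) (P y) (P y) = 0 := by
    intro y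
    rw [FT_apply]
    simp only [hP, Matrix.cons_val_zero, Matrix.cons_val_one, Matrix.cons_val, mul_one, one_pow]
    rw [cbrt_pow]
    simp only [hQ]
    ring
  -- the point above `x` is in the closure
  have hPW : P x ∈ W (FT a b c d) QR := by
    obtain ⟨u, hu, hu'⟩ := mem_closure_iff_seq_limit.1 hx
    refine W.of_seq (u := fun n => P (u n)) ?_ ((hPc.tendsto x).comp hu')
    refine Eventually.of_forall fun n => ?_
    obtain ⟨t, ⟨w, hw⟩, ht⟩ := hu n
    simp only at ht
    refine ⟨?_, hPz _⟩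
    have hwR : (w : ℝ) ^ 3 = Q t := by
      simp only [hQ]
      exact_mod_cast hw
    have hc : cbrt (Q (u n)) = w := by rw [← ht, ← eq_cbrt hwR]
    intro i
    fin_cases i
    · simp only [hP, Fin.zero_eta, Matrix.cons_val_zero]
      rw [← ht]; exact mem_QR _
    · simp only [hP, Fin.mk_one, Matrix.cons_val_one, Matrix.cons_val_zero]
      rw [hc]
      exact mem_QR _
    · exact ⟨1, by simp [hP]⟩
  have hD' : ds (a : ℝ) b c d ≠ 0 := by
    intro h
    apply hD
    have : ((ds a b c d : ℚ) : ℝ) = 0 := by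
      rw [← h]
      unfold ds
      push_cast
      ring
    exact_mod_cast this
  have hsm : ∃ e, (FT a b c d).f (P x) (P x) e ≠ 0 := by
    by_contra hcon
    push Not at hcon
    have e0 := hcon ![1, 0, 0]
    have e1 := hcon ![0, 1, 0]
    have e2 := hcon ![0, 0, 1]
    rw [FT_pol] at e0 e1 e2
    simp only [Matrix.cons_val_zero, Matrix.cons_val_one, Matrix.cons_val, mul_one, mul_zero,
      add_zero, zero_add, sub_zero, zero_sub, hP] at e0 e1 e2
    have g0 : cfT (a : ℝ) b c d 1 x = 0 := by linarith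
    have g2 : cfS (a : ℝ) b c d 1 x = 0 := by linarith
    exact grad_ne (by norm_num) hD' (Or.inl one_ne_zero) g2 g0
  obtain ⟨e, he⟩ := hsm
  obtain ⟨R, hR⟩ := FT_int hD hinf
  have hInt := int_all (FT_rat a b c d) (FT_NH hD) hR hPW he
  have h1 : ∀ᶠ y in 𝓝 x, (FT a b c d).f (P y) (P y) (P y) = 0 →
      P y ∈ W (FT a b c d) QR := (hPc.tendsto x).eventually hInt.2.2
  filter_upwards [h1] with y hy1
  obtain ⟨u, hu, hu'⟩ := W.seq (hy1 (hPz y))
  have g0 : Tendsto (fun n => u n 0) atTop (𝓝 y) := by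
    have := (tendsto_pi_nhds.1 hu') 0
    simpa [hP] using this
  have g2 : Tendsto (fun n => u n 2) atTop (𝓝 1) := by
    have := (tendsto_pi_nhds.1 hu') 2
    simpa [hP] using this
  have g : Tendsto (fun n => u n 0 / u n 2) atTop (𝓝 y) := by
    have := g0.div g2 one_ne_zero
    rw [div_one] at this
    exact this
  refine mem_closure_of_tendsto g ?_
  filter_upwards [g2.eventually_ne one_ne_zero] with n hn2
  obtain ⟨x1, hx1⟩ := of_QR ((hu n).1 0)
  obtain ⟨x2, hx2⟩ := of_QR ((hu n).1 1)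
  obtain ⟨x3, hx3⟩ := of_QR ((hu n).1 2)
  have hz := (hu n).2
  rw [FT_apply, ← hx1, ← hx2, ← hx3] at hz
  rw [← hx3] at hn2
  have hc0 : x3 ≠ 0 := by exact_mod_cast hn2
  rw [← hx1, ← hx3]
  refine ⟨x1 / x3, ⟨x2 / x3, ?_⟩, by push_cast; rfl⟩
  have hz' : x2 ^ 3 - (a * x3 ^ 3 + b * x1 * x3 ^ 2 + c * x1 ^ 2 * x3 + d * x1 ^ 3) = 0 := by
    exact_mod_cast hz
  field_simp
  linear_combination hz'

/-- **Infinitely many good parameters are dense.** -/
theorem cub_dense (hD : ds a b c d ≠ 0) (hinf : (cub a b c d).Infinite) :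
    Dense ((fun t : ℚ => (t : ℝ)) '' cub a b c d) := by
  set S : Set ℝ := (fun t : ℚ => (t : ℝ)) '' cub a b c d with hS
  have h1 : IsOpen (closure S) := by
    rw [isOpen_iff_mem_nhds]
    exact fun x hx => cub_open hD hinf hx
  have h2 : IsClopen (closure S) := ⟨isClosed_closure, h1⟩
  have h3 : (closure S).Nonempty := by
    obtain ⟨t, ht⟩ := hinf.nonempty
    exact ⟨t, subset_closure ⟨t, ht, rfl⟩⟩
  have h4 := h2.eq_univ h3
  exact dense_iff_closure_eq.2 h4

end Pool.Agent.D0H6.TC
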