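import Pool.Agent.D0H6.TC.Alg

/-!
# The 2-adic iteration has infinite orbits (helper6)
-/

set_option autoImplicit false

namespace Pool.Agent.D0H6.TC

/-- the 2-adic valuation -/
abbrev v (x : ℚ) : ℤ := padicValRat 2 x

lemma v_mul {x y : ℚ} (hx : x ≠ 0) (hy : y ≠ 0) : v (x * y) = v x + v y :=
  padicValRat.mul hx hy
lemma v_div {x y : ℚ} (hx : x ≠ 0) (hy : y ≠ 0) : v (x / y) = v x - v y :=
  padicValRat.div hx hy
lemma v_pow {x : ℚ} (_hx : x ≠ 0) (k : ℕ) : v (x ^ k) = k * v x := padicValRat.pow x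
lemma v_neg (x : ℚ) : v (-x) = v x := padicValRat.neg x

lemma v_two : v 2 = 1 := by
  have := padicValRat.self (p := 2) (by norm_num)
  exact_mod_cast this

lemma v_odd {m : ℤ} (hm : ¬ (2 : ℤ) ∣ m) : v (m : ℚ) = 0 := by
  rw [v, padicValRat.of_int]
  have : padicValInt 2 m = 0 := padicValInt.eq_zero_of_not_dvd (by exact_mod_cast hm)
  rw [this]
  rfl

lemma v_tw (k : ℕ) {m : ℤ} (hm : ¬ (2 : ℤ) ∣ m) : v (2 ^ k * (m : ℚ)) = k := by
  have hm0 : (m : ℚ) ≠ 0 := by
    intro h
    apply hm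
    have : m = 0 := by exact_mod_cast h
    rw [this]; exact dvd_zero _
  rw [v_mul (by positivity) hm0, v_pow (by norm_num), v_two, v_odd hm]
  ring

lemma v_one : v 1 = 0 := by
  have := v_odd (m := 1) (by norm_num)
  simp
lemma v_4 : v 4 = 2 := by
  have := v_tw 2 (m := 1) (by norm_num)
  norm_num at this
  exact_mod_cast this
lemma v_8 : v 8 = 3 := by
  have := v_tw 3 (m := 1) (by norm_num)
  norm_num at this
  exact_mod_cast this
lemma v_64 : v 64 = 6 := by
  have := v_tw 6 (m := 1) (by norm_num)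
  norm_num at this
  exact_mod_cast this
lemma v_216 : v 216 = 3 := by
  have := v_tw 3 (m := 27) (by norm_num)
  norm_num at this
  exact_mod_cast this
lemma v_1728 : v 1728 = 6 := by
  have := v_tw 6 (m := 27) (by norm_num)
  norm_num at this
  exact_mod_cast this
lemma v_3456 : v 3456 = 7 := by
  have := v_tw 7 (m := 27) (by norm_num)
  norm_num at this
  exact_mod_cast this

lemma va {x y : ℚ} (hx : x ≠ 0) (hy : y ≠ 0) (h : v x < v y) : x + y ≠ 0 ∧ v (x + y) = v x := by
  have h0 : x + y ≠ 0 := by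
    intro h0
    have : x = -y := by linarith
    rw [this, v_neg] at h
    exact lt_irrefl _ h
  exact ⟨h0, padicValRat.add_eq_of_lt h0 hx hy h⟩

lemma vmin {x y : ℚ} (h : x + y ≠ 0) : min (v x) (v y) ≤ v (x + y) :=
  padicValRat.min_le_padicValRat_add h

lemma odd_of_v {x : ℚ} (hx : x ≠ 0) (h : v x = 0) : ¬ (2 : ℤ) ∣ x.num ∧ ¬ (2 : ℤ) ∣ x.den := by
  have hc := x.reduced
  have h1 : v x = padicValInt 2 x.num - padicValNat 2 x.den := by
    rw [v, padicValRat]
  rw [h1] at h
  have hn0 : x.num ≠ 0 := Rat.num_ne_zero.2 hx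
  have hd0 : x.den ≠ 0 := x.den_nz
  by_cases hd : 2 ∣ x.den
  · have h2 : ¬ 2 ∣ x.num.natAbs := fun h3 => by
      have := Nat.dvd_gcd h3 hd
      rw [hc] at this
      omega
    have h3 : padicValInt 2 x.num = 0 := by
      rw [padicValInt]
      exact padicValNat.eq_zero_of_not_dvd h2
    have h4 : 1 ≤ padicValNat 2 x.den := one_le_padicValNat_of_dvd hd0 hd
    omega
  · have h4 : padicValNat 2 x.den = 0 := padicValNat.eq_zero_of_not_dvd hd
    rw [h4] at h
    refine ⟨fun h5 => ?_, by exact_mod_cast hd⟩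
    have h6 : 2 ∣ x.num.natAbs := by
      have := Int.natAbs_dvd_natAbs.2 h5
      simpa using this
    have h7 : 1 ≤ padicValNat 2 x.num.natAbs :=
      one_le_padicValNat_of_dvd (Int.natAbs_ne_zero.2 hn0) h6
    rw [padicValInt] at h
    omega

lemma v_odd_add {x y : ℚ} (hx : x ≠ 0) (hy : y ≠ 0) (h1 : v x = 0) (h2 : v y = 0)
    (h : x + y ≠ 0) : 1 ≤ v (x + y) := by
  obtain ⟨a1, a2⟩ := odd_of_v hx h1
  obtain ⟨b1, b2⟩ := odd_of_v hy h2
  have hxd : (x.den : ℚ) ≠ 0 := by exact_mod_cast x.den_nz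
  have hyd : (y.den : ℚ) ≠ 0 := by exact_mod_cast y.den_nz
  have e : x + y = ((x.num * y.den + y.num * x.den : ℤ) : ℚ) / ((x.den : ℚ) * y.den) := by
    push_cast
    rw [eq_div_iff (mul_ne_zero hxd hyd)]
    have e1 : x * x.den = x.num := Rat.mul_den_eq_num x
    have e2 : y * y.den = y.num := Rat.mul_den_eq_num y
    linear_combination (y.den : ℚ) * e1 + (x.den : ℚ) * e2
  have hn : ((x.num * y.den + y.num * x.den : ℤ) : ℚ) ≠ 0 := by
    intro h3
    rw [h3, zero_div] at e
    exact h e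
  have h3 : v ((x.den : ℚ) * y.den) = 0 := by
    rw [v_mul hxd hyd]
    have e1 := v_odd a2
    have e2 := v_odd b2
    push_cast at e1 e2
    rw [e1, e2]
    rfl
  rw [e, v_div hn (mul_ne_zero hxd hyd), h3, sub_zero]
  have heven : (2 : ℤ) ∣ x.num * y.den + y.num * x.den := by
    have o1 : Odd x.num := Int.not_even_iff_odd.1 (fun h => a1 h.two_dvd)
    have o2 : Odd (x.den : ℤ) := Int.not_even_iff_odd.1 (fun h => a2 h.two_dvd)
    have o3 : Odd y.num := Int.not_even_iff_odd.1 (fun h => b1 h.two_dvd)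
    have o4 : Odd (y.den : ℤ) := Int.not_even_iff_odd.1 (fun h => b2 h.two_dvd)
    exact ((o1.mul o4).add_odd (o3.mul o2)).two_dvd
  obtain ⟨k, hk⟩ := heven
  rw [hk]
  have hk0 : (k : ℚ) ≠ 0 := by
    intro h4
    apply hn
    rw [hk]
    push_cast
    rw [h4]
    ring
  push_cast
  rw [v_mul (by norm_num) hk0, v_two]
  have : 0 ≤ v (k : ℚ) := by
    rw [v, padicValRat.of_int]
    positivity
  linarith

/-- the regular values -/
def Reg (r : ℚ) : Prop := r ≠ 0 ∧ (v r < 0 ∨ (v r = 2 ∧ r + 4 ≠ 0) ∨ 4 ≤ v r)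

/-- the size which increases -/
noncomputable def mu (r : ℚ) : ℤ := if v r < 0 then - v r else if v r = 2 then v (r + 4) else v r

lemma Reg.nt {r : ℚ} (h : Reg r) : Nt r := by
  obtain ⟨h0, h⟩ := h
  refine ⟨h0, ?_, ?_, ?_⟩
  · rintro rfl
    have : v (-1) = 0 := by rw [v_neg, v_one]
    rw [this] at h
    omega
  · rintro rfl
    rw [v_8] at h
    omega
  · rintro rfl
    have : v (-4) = 2 := by rw [v_neg, v_4]
    rw [this] at h
    rcases h with h | ⟨-, h⟩ | h
    · omega
    · norm_num at h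
    · omega

lemma v_dbl {r : ℚ} (h : Nt r) :
    dbl r ≠ 0 ∧ v (dbl r) = v r + 3 * v (r - 8) - (6 + 3 * v (r + 1)) := by
  have h0 := h.z
  have h1 : r + 1 ≠ 0 := fun h1 => h.m (by linarith)
  have h8 : r - 8 ≠ 0 := fun h1 => h.e (by linarith)
  refine ⟨?_, ?_⟩
  · unfold dbl
    positivity
  · unfold dbl
    rw [v_div (by positivity) (by positivity), v_mul h0 (by positivity), v_pow h8,
      v_mul (by norm_num) (by positivity), v_pow h1, v_64]
    push_cast
    ring

lemma caseA {r : ℚ} (h : Nt r) (hv : v r < 0) : v (dbl r) = v r - 6 := by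
  have h0 := h.z
  have e1 : v (r + 1) = v r := (va h0 one_ne_zero (by rw [v_one]; exact hv)).2
  have e2 : v (r - 8) = v r := by
    have := (va h0 (y := -8) (by norm_num) (by rw [v_neg, v_8]; omega)).2
    rwa [← sub_eq_add_neg] at this
  rw [(v_dbl h).2, e1, e2]
  ring

lemma v_add_one {r : ℚ} (h : Nt r) (hv : 0 < v r) : v (r + 1) = 0 := by
  have := (va one_ne_zero h.z (by rw [v_one]; exact hv)).2
  rwa [v_one, add_comm] at this

lemma caseB {r : ℚ} (h : Nt r) (hv : v r = 2) :
    v (dbl r) = 2 ∧ dbl r + 4 ≠ 0 ∧ v (dbl r + 4) = v (r + 4) + 1 := by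
  have h0 := h.z
  have h1 : r + 1 ≠ 0 := fun h1 => h.m (by linarith)
  have h4 : r + 4 ≠ 0 := fun h1 => h.f (by linarith)
  have e1 := v_add_one h (by omega)
  have e2 : v (r - 8) = 2 := by
    have := (va h0 (y := -8) (by norm_num) (by rw [v_neg, v_8]; omega)).2
    rwa [← sub_eq_add_neg, hv] at this
  refine ⟨by rw [(v_dbl h).2, e1, e2, hv]; norm_num, ?_⟩
  -- the valuation of `r + 4`
  have h3 : 3 ≤ v (r + 4) := by
    have g1 : r / 4 ≠ 0 := by positivity
    have g2 : v (r / 4) = 0 := by rw [v_div h0 (by norm_num), hv, v_4]; norm_num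
    have g3 : r / 4 + 1 ≠ 0 := by
      intro g
      apply h4
      linarith
    have g4 := v_odd_add g1 one_ne_zero g2 v_one g3
    have g5 : r + 4 = (r / 4 + 1) * 4 := by ring
    rw [g5, v_mul g3 (by norm_num), v_4]
    omega
  set x := r + 4 with hx
  have hid : dbl r + 4 = x * (x ^ 3 + 216 * x ^ 2 - 1728 * x + 3456) / (64 * (r + 1) ^ 3) := by
    unfold dbl
    rw [hx]
    field_simp
    ring
  -- the bracket
  have k1 : v (x ^ 3) = 3 * v x := by rw [v_pow h4]; rfl
  have k2 : v (216 * x ^ 2) = 3 + 2 * v x := by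
    rw [v_mul (by norm_num) (by positivity), v_pow h4, v_216]; rfl
  have k3 : v (-(1728 * x)) = 6 + v x := by
    rw [v_neg, v_mul (by norm_num) h4, v_1728]
  have m1 := va (x := 3456) (y := x ^ 3) (by norm_num) (by positivity) (by rw [v_3456, k1]; omega)
  have m2 := va (x := 3456 + x ^ 3) (y := 216 * x ^ 2) m1.1 (by positivity)
    (by rw [m1.2, v_3456, k2]; omega)
  have m3 := va (x := 3456 + x ^ 3 + 216 * x ^ 2) (y := -(1728 * x)) m2.1
    (by rw [neg_ne_zero]; positivity) (by rw [m2.2, m1.2, v_3456, k3]; omega)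
  have m4 : x ^ 3 + 216 * x ^ 2 - 1728 * x + 3456 = 3456 + x ^ 3 + 216 * x ^ 2 + -(1728 * x) := by
    ring
  have m5 : v (x ^ 3 + 216 * x ^ 2 - 1728 * x + 3456) = 7 := by
    rw [m4, m3.2, m2.2, m1.2, v_3456]
  have m6 : x ^ 3 + 216 * x ^ 2 - 1728 * x + 3456 ≠ 0 := by rw [m4]; exact m3.1
  rw [hid]
  refine ⟨by positivity, ?_⟩
  rw [v_div (by positivity) (by positivity), v_mul h4 m6, m5,
    v_mul (by norm_num) (by positivity), v_pow h1, v_64, e1]
  push_cast
  ring

lemma caseC {r : ℚ} (h : Nt r) (hv : 4 ≤ v r) : v (dbl r) = v r + 3 := by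
  have h0 := h.z
  have e1 := v_add_one h (by omega)
  have e2 : v (r - 8) = 3 := by
    have := (va (x := -8) (y := r) (by norm_num) h0 (by rw [v_neg, v_8]; omega)).2
    rw [v_neg, v_8, add_comm, ← sub_eq_add_neg] at this
    exact this
  rw [(v_dbl h).2, e1, e2]
  ring

lemma step {r : ℚ} (h : Nt r) : Reg (dbl r) := by
  have h0 := h.z
  have hd := v_dbl h
  refine ⟨hd.1, ?_⟩
  have h1 : r + 1 ≠ 0 := fun h1 => h.m (by linarith)
  have h8 : r - 8 ≠ 0 := fun h1 => h.e (by linarith)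
  rcases lt_or_ge (v r) 0 with hv | hv
  · left
    rw [caseA h hv]
    omega
  rcases eq_or_lt_of_le hv with hv0 | hv0
  · left
    have e1 : 0 ≤ v (r + 1) := by
      have := vmin h1
      rw [v_one, ← hv0] at this
      simpa using this
    have e2 : v (r - 8) = 0 := by
      have := (va h0 (y := -8) (by norm_num) (by rw [v_neg, v_8]; omega)).2
      rw [← sub_eq_add_neg] at this
      rw [this, ← hv0]
    rw [hd.2, e2, ← hv0]
    omega
  have e1 := v_add_one h hv0
  by_cases v1 : v r = 1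
  · left
    have e2 : v (r - 8) = 1 := by
      have := (va h0 (y := -8) (by norm_num) (by rw [v_neg, v_8]; omega)).2
      rw [← sub_eq_add_neg] at this
      rw [this, v1]
    rw [hd.2, e1, e2, v1]
    norm_num
  by_cases v2 : v r = 2
  · right; left
    obtain ⟨b1, b2, -⟩ := caseB h v2
    exact ⟨b1, b2⟩
  right; right
  by_cases v3 : v r = 3
  · have e2 : 3 ≤ v (r - 8) := by
      have h8' : r + -8 ≠ 0 := by rwa [← sub_eq_add_neg]
      have := vmin h8'
      rw [v_neg, v_8, v3, ← sub_eq_add_neg] at this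
      simpa using this
    rw [hd.2, e1, v3]
    omega
  · rw [caseC h (by omega)]
    omega

lemma mu_lt {r : ℚ} (h : Reg r) : mu r < mu (dbl r) := by
  have hN := h.nt
  obtain ⟨h0, h⟩ := h
  rcases h with h | ⟨h, h'⟩ | h
  · have e := caseA hN h
    unfold mu
    rw [if_pos h, if_pos (by omega), e]
    omega
  · obtain ⟨b1, b2, b3⟩ := caseB hN h
    unfold mu
    rw [if_neg (by omega), if_pos h, if_neg (by omega), if_pos b1, b3]
    omega
  · have e := caseC hN h
    unfold mu
    rw [if_neg (by omega), if_neg (by omega), if_neg (by omega), if_neg (by omega), e]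
    omega

/-- **the orbits are infinite** -/
theorem orbit_injective {u : ℕ → ℚ} (h0 : Nt (u 0)) (h : ∀ n, u (n + 1) = dbl (u n)) :
    Function.Injective fun n => u (n + 1) := by
  have hR : ∀ n, Reg (u (n + 1)) := by
    intro n
    induction n with
    | zero => rw [h]; exact step h0
    | succ n ih => rw [h]; exact step ih.nt
  have hm : StrictMono fun n => mu (u (n + 1)) := by
    refine strictMono_nat_of_lt_succ fun n => ?_
    have := mu_lt (hR n)
    rwa [← h (n + 1)] at this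
  intro i j hij
  exact hm.injective (congrArg mu hij)

end Pool.Agent.D0H6.TC
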