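import Pool.Agent.D0H6.TC.Surf

/-!
# Zariski density implies real density (helper6)
-/

set_option autoImplicit false
set_option linter.unusedSimpArgs false

namespace Pool.Agent.D0H6.TC

open Set Filter Topology MvPolynomial
open Pool.Agent.TH729.SQ (rl aeval_cast)

variable {n : ℕ}

lemma lineP_taylor (f : MvPolynomial (Fin n) ℚ) (z v : Fin n → ℚ) (β : ℚ) :
    Polynomial.taylor β (lineP f z v) = lineP f (fun i => z i + β * v i) v := by
  refine Polynomial.funext fun t => ?_
  rw [Polynomial.taylor_eval, lineP_eval, lineP_eval]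
  congr 2
  funext i
  ring

lemma exists_Ndg' {f : MvPolynomial (Fin n) ℚ} {v : Fin n → ℚ}
    (hdeg : ∀ z, (lineP f z v).natDegree ≤ 3) {z : Fin n → ℚ} (hz : ¬ Dz (lineP f z v)) :
    ∃ β : ℚ, Ndg (lineP f (fun i => z i + β * v i) v) := by
  set q := lineP f z v with hq
  have h0 := taylor_ds (hdeg z) 0
  rw [Polynomial.taylor_zero, ← hq] at h0
  have h1 : q.eval 0 ≠ 0 ∧ ds (q.coeff 0) (q.coeff 1) (q.coeff 2) (q.coeff 3) ≠ 0 := by
    constructor
    · intro h
      apply hz
      rw [h] at h0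
      unfold Dz
      linear_combination h0
    · intro h
      apply hz
      rw [h] at h0
      unfold Dz
      linear_combination h0
  have hq0 : q ≠ 0 := by
    intro h
    apply h1.1
    rw [h, Polynomial.eval_zero]
  have hfin : ({β : ℚ | ¬ OK q β} ∪ {β | q.IsRoot β}).Finite :=
    (notOK_finite (hdeg z)).union (Polynomial.finite_setOfPred_isRoot hq0)
  obtain ⟨β, hβ⟩ := hfin.exists_notMem
  simp only [mem_union, mem_ofPred_eq, not_or, not_not] at hβ
  obtain ⟨hok, hroot⟩ := hβ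
  have hroot : q.eval β ≠ 0 := hroot
  have h2 := taylor_ds (hdeg z) β
  rw [← hq] at h2
  refine ⟨β, ?_⟩
  rw [← lineP_taylor, ← hq]
  refine ⟨?_, ?_⟩
  · rw [Polynomial.coeff_zero_eq_eval_zero, Polynomial.taylor_eval, zero_add]
    exact hroot
  · refine hok.resolve_left fun h => ?_
    unfold Dz at h
    rw [h, sub_self] at h2
    have : -27 * q.eval β ^ 2 * ds (q.coeff 0) (q.coeff 1) (q.coeff 2) (q.coeff 3) ≠ 0 :=
      mul_ne_zero (mul_ne_zero (by norm_num) (pow_ne_zero _ hroot)) h1.2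
    exact this h2.symm

/-- **Zariski density implies density in the real topology.** -/
theorem zariski_dense (f : MvPolynomial (Fin n) ℚ) (hf : f ≠ 0) (v : Fin n → Fin n → ℚ)
    (hv : LinearIndependent ℚ v) (hdeg : ∀ (k : Fin n) (z : Fin n → ℚ), (lineP f z (v k)).natDegree ≤ 3) :
    ∃ P : MvPolynomial (Fin n) ℚ, P ≠ 0 ∧ ((∃ z ∈ Cb f, eval z P ≠ 0) → Dense (rl (Cb f))) := by
  classical
  have hk : ∀ k, ∃ P : MvPolynomial (Fin n) ℚ, P ≠ 0 ∧ ∀ z, eval z P ≠ 0 →
      (∀ y, Dz (lineP f y (v k))) ∨ Ndg (lineP f z (v k)) := by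
    intro k
    by_cases h : ∀ y, Dz (lineP f y (v k))
    · exact ⟨1, one_ne_zero, fun _ _ => Or.inl h⟩
    · push Not at h
      obtain ⟨y, hy⟩ := h
      obtain ⟨β, hβ⟩ := exists_Ndg' (hdeg k) hy
      refine ⟨NP f (v k), ?_, fun z hz => Or.inr ((NP_eval _ _ _).1 hz)⟩
      intro h0
      have := (NP_eval _ _ _).2 hβ
      rw [h0, map_zero] at this
      exact this rfl
  choose P hP1 hP2 using hk
  refine ⟨f * ∏ k, P k, mul_ne_zero hf (Finset.prod_ne_zero_iff.2 fun k _ => hP1 k), ?_⟩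
  rintro ⟨z, hz, hne⟩
  rw [map_mul, map_prod] at hne
  have h1 := left_ne_zero_of_mul hne
  have h2 := Finset.prod_ne_zero_iff.1 (right_ne_zero_of_mul hne)
  refine dense_Cb f z v hv hdeg h1 hz fun k => ?_
  rcases hP2 k z (h2 k (Finset.mem_univ k)) with h | h
  · exact Or.inl fun s _ => h _
  · right
    refine ⟨0, fun _ _ => rfl, ?_⟩
    have e : (fun i => z i + ∑ j, (0 : Fin n → ℚ) j * v j i) = z := by
      funext i
      simp
    rw [e]
    exact h

end Pool.Agent.D0H6.TC
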