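import Pool.Agent.D0H6.TC.Dyn

/-!
# Infinitely many rational points on `w³ = F(S, T)` (helper6)
-/

set_option autoImplicit false

namespace Pool.Agent.D0H6.TC

/-- The covariants at a point: `h` is the Hessian, `g` the cubic covariant. -/
structure NdHG (h g : ℚ) : Prop where
  h0 : h ≠ 0
  g0 : g ≠ 0
  a : g ^ 2 ≠ 4 * h ^ 3
  b : g ^ 2 ≠ 3 * h ^ 3
  c : 2 * g ^ 2 ≠ 9 * h ^ 3

/-- the value `x³ / k` -/
def rv (h g : ℚ) : ℚ := 4 * h ^ 3 / (g ^ 2 - 4 * h ^ 3)

lemma NdHG.nt {h g : ℚ} (H : NdHG h g) : Nt (rv h g) := by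
  have hd : g ^ 2 - 4 * h ^ 3 ≠ 0 := sub_ne_zero.2 H.a
  have h3 : h ^ 3 ≠ 0 := pow_ne_zero _ H.h0
  refine ⟨?_, ?_, ?_, ?_⟩
  · unfold rv
    exact div_ne_zero (mul_ne_zero (by norm_num) h3) hd
  · intro e
    unfold rv at e
    rw [div_eq_iff hd] at e
    exact pow_ne_zero 2 H.g0 (by linarith)
  · intro e
    unfold rv at e
    rw [div_eq_iff hd] at e
    exact H.c (by linarith)
  · intro e
    unfold rv at e
    rw [div_eq_iff hd] at e
    exact H.b (by linarith)

lemma ndHG_of {h g : ℚ} (ha : g ^ 2 ≠ 4 * h ^ 3) (H : Nt (rv h g)) : NdHG h g := by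
  have hd : g ^ 2 - 4 * h ^ 3 ≠ 0 := sub_ne_zero.2 ha
  refine ⟨?_, ?_, ha, ?_, ?_⟩
  · rintro rfl
    exact H.z (by simp [rv])
  · rintro rfl
    apply H.m
    unfold rv
    rw [div_eq_iff hd]
    ring
  · intro e
    apply H.f
    unfold rv
    rw [div_eq_iff hd]
    linarith
  · intro e
    apply H.e
    unfold rv
    rw [div_eq_iff hd]
    linarith

/-- a rational point with nonvanishing `w` and non torsion covariants -/
structure GP (a b c d : ℚ) (P : ℚ × ℚ × ℚ) : Prop where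
  pt : P.2.2 ^ 3 = cf a b c d P.1 P.2.1
  w : P.2.2 ≠ 0
  nd : NdHG (he a b c d P.1 P.2.1) (ja a b c d P.1 P.2.1)

/-- the tangent map -/
def tn (a b c d : ℚ) (P : ℚ × ℚ × ℚ) : ℚ × ℚ × ℚ :=
  (tS a b c d P.1 P.2.1, tT a b c d P.1 P.2.1, P.2.2 * ja a b c d P.1 P.2.1)

/-- the value of a point -/
def rP (a b c d : ℚ) (P : ℚ × ℚ × ℚ) : ℚ := rv (he a b c d P.1 P.2.1) (ja a b c d P.1 P.2.1)

lemma tn_rv {a b c d : ℚ} {P : ℚ × ℚ × ℚ} (H : GP a b c d P) :
    GP a b c d (tn a b c d P) ∧ rP a b c d (tn a b c d P) = dbl (rP a b c d P) := by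
  obtain ⟨S, T, w⟩ := P
  obtain ⟨pt, hw, nd⟩ := H
  simp only at pt hw nd
  set h := he a b c d S T with hh
  set g := ja a b c d S T with hg
  set f := cf a b c d S T with hf
  have hf0 : f ≠ 0 := by rw [← pt]; exact pow_ne_zero _ hw
  have s1 := syz a b c d S T
  rw [← hh, ← hg, ← hf] at s1
  have e1 := cf_tan a b c d S T
  rw [← hg, ← hf] at e1
  have e2 := he_tan a b c d S T
  rw [← hh, ← hg] at e2
  have s2 := syz a b c d (tS a b c d S T) (tT a b c d S T)
  rw [e1, e2] at s2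
  set g' := ja a b c d (tS a b c d S T) (tT a b c d S T) with hg'
  set h' := h * (9 * h ^ 3 - 2 * g ^ 2) with hh'
  have hD : g ^ 2 - 4 * h ^ 3 ≠ 0 := sub_ne_zero.2 nd.a
  have hD' : g' ^ 2 - 4 * h' ^ 3 = (g ^ 2 - 4 * h ^ 3) * g ^ 6 := by
    linear_combination s2 - g ^ 6 * s1
  have hD0 : g' ^ 2 - 4 * h' ^ 3 ≠ 0 := by
    rw [hD']
    exact mul_ne_zero hD (pow_ne_zero _ nd.g0)
  have hr : rv h' g' = dbl (rv h g) := by
    have hr1 : rv h g + 1 = g ^ 2 / (g ^ 2 - 4 * h ^ 3) := by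
      unfold rv
      field_simp
      ring
    have hr8 : rv h g - 8 = 4 * (9 * h ^ 3 - 2 * g ^ 2) / (g ^ 2 - 4 * h ^ 3) := by
      unfold rv
      field_simp
      ring
    unfold dbl
    rw [hr1, hr8]
    unfold rv
    rw [hD', hh']
    have hg0 := nd.g0
    field_simp
    ring
  refine ⟨⟨?_, ?_, ?_⟩, ?_⟩
  · simp only [tn]
    rw [e1, ← hg, mul_pow, pt]
  · simp only [tn]
    exact mul_ne_zero hw nd.g0
  · simp only [tn]
    rw [e2]
    refine ndHG_of (sub_ne_zero.1 hD0) ?_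
    rw [hr]
    exact (step nd.nt).nt
  · simp only [tn, rP]
    rw [e2]
    exact hr

lemma rP_smul {a b c d : ℚ} {S T : ℚ} (hS : S ≠ 0) :
    rv (he a b c d S T) (ja a b c d S T) = rv (he a b c d 1 (T / S)) (ja a b c d 1 (T / S)) := by
  have e1 : he a b c d S T = S ^ 2 * he a b c d 1 (T / S) := by
    unfold he
    field_simp
  have e2 : ja a b c d S T = S ^ 3 * ja a b c d 1 (T / S) := by
    unfold ja
    field_simp
  rw [e1, e2]
  unfold rv
  have : (S ^ 3 * ja a b c d 1 (T / S)) ^ 2 - 4 * (S ^ 2 * he a b c d 1 (T / S)) ^ 3 =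
      S ^ 6 * (ja a b c d 1 (T / S) ^ 2 - 4 * he a b c d 1 (T / S) ^ 3) := by ring
  rw [this]
  have h2 : 4 * (S ^ 2 * he a b c d 1 (T / S)) ^ 3 = S ^ 6 * (4 * he a b c d 1 (T / S) ^ 3) := by
    ring
  rw [h2, mul_div_mul_left _ _ (pow_ne_zero 6 hS)]

/-- the rational parameters at which the cubic is a cube -/
def cub (a b c d : ℚ) : Set ℚ := {t | ∃ w : ℚ, w ^ 3 = a + b * t + c * t ^ 2 + d * t ^ 3}

theorem cub_infinite {a b c d : ℚ} {P : ℚ × ℚ × ℚ} (H : GP a b c d P) :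
    (cub a b c d).Infinite := by
  set u : ℕ → ℚ × ℚ × ℚ := fun n => (tn a b c d)^[n] P with hu
  have hu1 : ∀ n, u (n + 1) = tn a b c d (u n) := fun n => by
    simp only [hu]
    rw [Function.iterate_succ_apply']
  have hG : ∀ n, GP a b c d (u n) := by
    intro n
    induction n with
    | zero => exact H
    | succ n ih => rw [hu1]; exact (tn_rv ih).1
  have hinj : Function.Injective fun n => rP a b c d (u (n + 1)) := by
    refine orbit_injective (u := fun n => rP a b c d (u n)) ?_ fun n => ?_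
    · exact (hG 0).nd.nt
    · rw [hu1]
      exact (tn_rv (hG n)).2
  intro hfin
  have hsub : Set.range (fun n => rP a b c d (u (n + 1))) ⊆
      insert (rv (he a b c d 0 1) (ja a b c d 0 1))
        ((fun t => rv (he a b c d 1 t) (ja a b c d 1 t)) '' cub a b c d) := by
    rintro _ ⟨n, rfl⟩
    have hn := hG (n + 1)
    simp only
    generalize u (n + 1) = Q at hn
    obtain ⟨S, T, w⟩ := Q
    obtain ⟨pt, hw, nd⟩ := hn
    simp only at pt hw nd
    simp only [rP]
    by_cases hS : S = 0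
    · left
      subst hS
      have hT : T ≠ 0 := by
        rintro rfl
        apply hw
        have : w ^ 3 = 0 := by rw [pt]; unfold cf; ring
        exact pow_eq_zero_iff (by norm_num) |>.1 this
      have e1 : he a b c d 0 T = T ^ 2 * he a b c d 0 1 := by
        unfold he
        ring
      have e2 : ja a b c d 0 T = T ^ 3 * ja a b c d 0 1 := by
        unfold ja
        ring
      rw [e1, e2]
      unfold rv
      have h1 : (T ^ 3 * ja a b c d 0 1) ^ 2 - 4 * (T ^ 2 * he a b c d 0 1) ^ 3 =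
          T ^ 6 * (ja a b c d 0 1 ^ 2 - 4 * he a b c d 0 1 ^ 3) := by ring
      have h2 : 4 * (T ^ 2 * he a b c d 0 1) ^ 3 = T ^ 6 * (4 * he a b c d 0 1 ^ 3) := by
        ring
      rw [h1, h2, mul_div_mul_left _ _ (pow_ne_zero 6 hT)]
    · right
      refine ⟨T / S, ⟨w / S, ?_⟩, (rP_smul hS).symm⟩
      rw [div_pow, pt]
      unfold cf
      field_simp
  exact (hfin.image _ |>.insert _).subset hsub |>.not_infinite (Set.infinite_range_of_injective hinj)

end Pool.Agent.D0H6.TC
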