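import Pool.Agent.D0H6.TC.Dens

/-!
# Dense parameters on a line (helper6)
-/

set_option autoImplicit false
set_option linter.unusedSimpArgs false

namespace Pool.Agent.D0H6.TC

open Set Filter Topology

/-- the real numbers given by a set of rational numbers -/
def rr (S : Set ℚ) : Set ℝ := (fun t : ℚ => (t : ℝ)) '' S

lemma rat_dense : Dense (rr univ) := by
  unfold rr
  rw [image_univ]
  exact Rat.denseRange_cast

variable {a b c d : ℚ}

/-- the case of a multiple zero -/
theorem cub_dense_zero {w0 : ℚ} (hw : w0 ≠ 0) (ha : w0 ^ 3 = a) (hD : ds a b c d = 0) :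
    Dense (rr (cub a b c d)) := by
  have ha0 : a ≠ 0 := by rw [← ha]; exact pow_ne_zero _ hw
  have hs := syz a b c d 1 0
  rw [hD] at hs
  set H : ℚ := b ^ 2 - 3 * a * c with hH
  set G : ℚ := 2 * b ^ 3 - 9 * a * b * c + 27 * a ^ 2 * d with hG
  have e1 : he a b c d 1 0 = H := by unfold he; ring
  have e2 : ja a b c d 1 0 = G := by unfold ja; ring
  rw [e1, e2] at hs
  have hs' : G ^ 2 = 4 * H ^ 3 := by linear_combination hs
  by_cases hH0 : H = 0
  · -- a triple zero
    have hG0 : G = 0 := by
      rw [hH0] at hs'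
      have : G ^ 2 = 0 := by linear_combination hs'
      exact pow_eq_zero_iff (by norm_num) |>.1 this
    have hall : cub a b c d = univ := by
      refine eq_univ_of_forall fun t => ⟨w0 * (1 + b / (3 * a) * t), ?_⟩
      have hc : c = b ^ 2 / (3 * a) := by
        field_simp
        linear_combination -hH0
      have hd : d = b ^ 3 / (27 * a ^ 2) := by
        have h1 : 27 * a ^ 2 * d = b ^ 3 := by
          have : 3 * a * c = b ^ 2 := by linear_combination -hH0
          linear_combination hG0 + 3 * b * this
        field_simp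
        linear_combination h1
      rw [mul_pow, ha, hc, hd]
      field_simp
      ring
    rw [hall]
    exact rat_dense
  · -- a double zero
    set h : ℚ := G / (2 * H) with hh
    have h1 : h ^ 2 = H := by
      rw [hh]
      field_simp
      linear_combination hs'
    have h2 : 2 * h ^ 3 = G := by
      have : h * H = G / 2 := by rw [hh]; field_simp
      linear_combination 2 * h * h1 + 2 * this
    have hh0 : h ≠ 0 := by
      intro h0
      apply hH0
      rw [← h1, h0]
      ring
    -- the factorisation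
    have hfac : ∀ t : ℚ, 27 * a ^ 2 * (a + b * t + c * t ^ 2 + d * t ^ 3) =
        (3 * a + (b - h) * t) ^ 2 * (3 * a + (b + 2 * h) * t) := by
      intro t
      have g1 : 3 * a * c = b ^ 2 - h ^ 2 := by rw [h1]; ring
      have g2 : 27 * a ^ 2 * d = 2 * h ^ 3 - 2 * b ^ 3 + 9 * a * b * c := by rw [h2]; ring
      linear_combination (9 * a * t ^ 2 + 3 * b * t ^ 3) * g1 + t ^ 3 * g2
    -- the parametrisation
    have hpar : ∀ u : ℚ, u ^ 3 * (b - h) - a * (b + 2 * h) ≠ 0 →
        3 * a * (a - u ^ 3) / (u ^ 3 * (b - h) - a * (b + 2 * h)) ∈ cub a b c d := by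
      intro u hu
      set t := 3 * a * (a - u ^ 3) / (u ^ 3 * (b - h) - a * (b + 2 * h)) with ht
      have ht' : t * (u ^ 3 * (b - h) - a * (b + 2 * h)) = 3 * a * (a - u ^ 3) := by
        rw [ht, div_mul_cancel₀ _ hu]
      refine ⟨u * (3 * a + (b - h) * t) / (3 * a), ?_⟩
      have k1 : u ^ 3 * (3 * a + (b - h) * t) = a * (3 * a + (b + 2 * h) * t) := by
        linear_combination ht'
      have k2 := hfac t
      have k3 : (u * (3 * a + (b - h) * t) / (3 * a)) ^ 3 * (27 * a ^ 3) =
          (a + b * t + c * t ^ 2 + d * t ^ 3) * (27 * a ^ 3) := by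
        have : (u * (3 * a + (b - h) * t) / (3 * a)) ^ 3 * (27 * a ^ 3) =
            u ^ 3 * (3 * a + (b - h) * t) * (3 * a + (b - h) * t) ^ 2 := by
          field_simp
          ring
        rw [this, k1]
        linear_combination -a * k2
      exact mul_right_cancel₀ (by positivity) k3
    -- density
    have haR : (a : ℝ) ≠ 0 := by exact_mod_cast ha0
    have hhR : (h : ℝ) ≠ 0 := by exact_mod_cast hh0
    intro x
    have hdense : Dense {y : ℝ | 3 * (a : ℝ) + (b - h) * y ≠ 0} := by
      have hfin : {y : ℝ | 3 * (a : ℝ) + (b - h) * y = 0}.Finite := by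
        refine Set.Subsingleton.finite fun y hy z hz => ?_
        change 3 * (a : ℝ) + (b - h) * y = 0 at hy
        change 3 * (a : ℝ) + (b - h) * z = 0 at hz
        have hbh : ((b : ℝ) - h) ≠ 0 := by
          intro h0
          rw [h0] at hy
          apply haR
          linarith
        have : ((b : ℝ) - h) * (y - z) = 0 := by linear_combination hy - hz
        linarith [(mul_eq_zero.1 this).resolve_left hbh]
      have : {y : ℝ | 3 * (a : ℝ) + (b - h) * y ≠ 0} =
          {y : ℝ | 3 * (a : ℝ) + (b - h) * y = 0}ᶜ := rfl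
      rw [this]
      exact hfin.countable.dense_compl ℝ
    have hsub : {y : ℝ | 3 * (a : ℝ) + (b - h) * y ≠ 0} ⊆ closure (rr (cub a b c d)) := by
      intro y hy
      change 3 * (a : ℝ) + (b - h) * y ≠ 0 at hy
      set U : ℝ := (a * (3 * a + (b + 2 * h) * y)) / (3 * a + (b - h) * y) with hU
      set u : ℝ := cbrt U with hu
      have hu3 : u ^ 3 = U := cbrt_pow U
      have hUD : U * (3 * a + (b - h) * y) = a * (3 * a + (b + 2 * h) * y) := by
        rw [hU, div_mul_cancel₀ _ hy]
      have hden : u ^ 3 * (b - h) - a * (b + 2 * h) ≠ 0 := by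
        rw [hu3]
        intro h0
        have h1 : -9 * (a : ℝ) ^ 2 * h = 0 := by
          linear_combination (3 * (a : ℝ) + (b - h) * y) * h0 - ((b : ℝ) - h) * hUD
        have h2 : (a : ℝ) ^ 2 * h ≠ 0 := mul_ne_zero (pow_ne_zero _ haR) hhR
        apply h2
        linarith
      have hval : 3 * a * (a - u ^ 3) / (u ^ 3 * (b - h) - a * (b + 2 * h)) = y := by
        rw [div_eq_iff hden, hu3]
        refine mul_right_cancel₀ hy ?_
        linear_combination (-3 * (a : ℝ) - y * (b - h)) * hUD
      obtain ⟨un, hun, hun'⟩ := mem_closure_iff_seq_limit.1 (Rat.denseRange_cast (𝕜 := ℝ) u)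
      choose q hq using hun
      have hlim : Tendsto (fun n => 3 * (a : ℝ) * (a - un n ^ 3) /
          (un n ^ 3 * (b - h) - a * (b + 2 * h))) atTop (𝓝 y) := by
        rw [← hval]
        refine Tendsto.div ?_ ?_ hden
        · exact (tendsto_const_nhds.sub (hun'.pow 3)).const_mul _
        · exact ((hun'.pow 3).mul_const _).sub_const _
      have hev : ∀ᶠ n in atTop, un n ^ 3 * ((b : ℝ) - h) - a * (b + 2 * h) ≠ 0 :=
        (((hun'.pow 3).mul_const _).sub_const _).eventually_ne hden
      refine mem_closure_of_tendsto hlim ?_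
      filter_upwards [hev] with n hn
      rw [← hq n] at hn ⊢
      refine ⟨_, hpar (q n) (by exact_mod_cast hn), ?_⟩
      push_cast
      rfl
    exact closure_minimal hsub isClosed_closure (hdense x)

/-- the discriminant in terms of the covariants at a point with nonzero value -/
lemma ds_ne {a b c d S T : ℚ} (h : ja a b c d S T ^ 2 ≠ 4 * he a b c d S T ^ 3) :
    ds a b c d ≠ 0 := by
  intro h0
  apply h
  have := syz a b c d S T
  rw [h0] at this
  linear_combination this

/-- **the base point is finite** -/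
theorem line_dense {w0 : ℚ} (hw : w0 ≠ 0) (ha : w0 ^ 3 = a)
    (h : ds a b c d = 0 ∨ NdHG (he a b c d 1 0) (ja a b c d 1 0)) :
    Dense (rr (cub a b c d)) := by
  rcases h with h | h
  · exact cub_dense_zero hw ha h
  · refine cub_dense (ds_ne h.a) (cub_infinite (P := (1, 0, w0)) ⟨?_, hw, h⟩)
    simp only
    rw [ha]
    unfold cf
    ring

/-- **the base point is at infinity** -/
theorem line_dense_inf {w0 : ℚ} (hw : w0 ≠ 0) (ha : w0 ^ 3 = d)
    (h : NdHG (he a b c d 0 1) (ja a b c d 0 1)) : Dense (rr (cub a b c d)) := by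
  refine cub_dense (ds_ne h.a) (cub_infinite (P := (0, 1, w0)) ⟨?_, hw, h⟩)
  simp only
  rw [ha]
  unfold cf
  ring

end Pool.Agent.D0H6.TC
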