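import Pool.Agent.D0H6.TC.Line
import Pool.Agent.TH729.SQ.Values

/-!
# Triple covers `w³ = f(z)`: density (helper6)
-/

set_option autoImplicit false
set_option linter.unusedSimpArgs false

namespace Pool.Agent.D0H6.TC

open Set Filter Topology MvPolynomial
open Pool.Agent.TH729.SQ (rl aeval_cast)

variable {n : ℕ}

/-- the restriction of a polynomial to a line -/
noncomputable def lineP (f : MvPolynomial (Fin n) ℚ) (z v : Fin n → ℚ) : Polynomial ℚ :=
  aeval (fun k => Polynomial.C (z k) + Polynomial.C (v k) * Polynomial.X) f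

lemma lineP_eval (f : MvPolynomial (Fin n) ℚ) (z v : Fin n → ℚ) (t : ℚ) :
    (lineP f z v).eval t = eval (fun k => z k + t * v k) f := by
  unfold lineP
  induction f using MvPolynomial.induction_on with
  | C a => simp
  | add p q hp hq => simp [hp, hq]
  | mul_X p i hp => simp [hp]; left; ring

/-- the restrictions to parallel lines, with polynomial coefficients -/
noncomputable def lineU (f : MvPolynomial (Fin n) ℚ) (v : Fin n → ℚ) :
    Polynomial (MvPolynomial (Fin n) ℚ) :=
  aeval (fun k => Polynomial.C (X k) + Polynomial.C (C (v k)) * Polynomial.X) f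

lemma lineU_map (f : MvPolynomial (Fin n) ℚ) (v z : Fin n → ℚ) :
    (lineU f v).map (eval z) = lineP f z v := by
  unfold lineU lineP
  induction f using MvPolynomial.induction_on with
  | C a =>
    simp only [algHom_C, Polynomial.algebraMap_apply, MvPolynomial.algebraMap_eq]
    simp
  | add p q hp hq => simp [hp, hq]
  | mul_X p i hp => simp [hp]

lemma lineU_coeff (f : MvPolynomial (Fin n) ℚ) (v z : Fin n → ℚ) (j : ℕ) :
    eval z ((lineU f v).coeff j) = (lineP f z v).coeff j := by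
  rw [← lineU_map, Polynomial.coeff_map]

/-- the Hessian covariant at `0` of a cubic polynomial -/
def Qh (q : Polynomial ℚ) : ℚ := q.coeff 1 ^ 2 - 3 * q.coeff 0 * q.coeff 2
/-- the cubic covariant at `0` of a cubic polynomial -/
def Qg (q : Polynomial ℚ) : ℚ :=
  2 * q.coeff 1 ^ 3 - 9 * q.coeff 0 * q.coeff 1 * q.coeff 2 + 27 * q.coeff 0 ^ 2 * q.coeff 3

/-- the parameter `0` is not degenerate -/
def Ndg (q : Polynomial ℚ) : Prop := q.coeff 0 ≠ 0 ∧ NdHG (Qh q) (Qg q)

/-- the polynomial whose nonvanishing is nondegeneracy -/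
noncomputable def NP (f : MvPolynomial (Fin n) ℚ) (v : Fin n → ℚ) : MvPolynomial (Fin n) ℚ :=
  let c := fun j => (lineU f v).coeff j
  let H := c 1 ^ 2 - 3 * c 0 * c 2
  let G := 2 * c 1 ^ 3 - 9 * c 0 * c 1 * c 2 + 27 * c 0 ^ 2 * c 3
  c 0 * (H * (G * ((G ^ 2 - 4 * H ^ 3) * ((G ^ 2 - 3 * H ^ 3) * (2 * G ^ 2 - 9 * H ^ 3)))))

lemma NP_eval (f : MvPolynomial (Fin n) ℚ) (v z : Fin n → ℚ) :
    eval z (NP f v) ≠ 0 ↔ Ndg (lineP f z v) := by
  have h3 : eval z (3 : MvPolynomial (Fin n) ℚ) = 3 := map_ofNat _ 3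
  have h2 : eval z (2 : MvPolynomial (Fin n) ℚ) = 2 := map_ofNat _ 2
  have h4 : eval z (4 : MvPolynomial (Fin n) ℚ) = 4 := map_ofNat _ 4
  have h9 : eval z (9 : MvPolynomial (Fin n) ℚ) = 9 := map_ofNat _ 9
  have h27 : eval z (27 : MvPolynomial (Fin n) ℚ) = 27 := map_ofNat _ 27
  have e : eval z (NP f v) = (lineP f z v).coeff 0 * (Qh (lineP f z v) * (Qg (lineP f z v) *
      ((Qg (lineP f z v) ^ 2 - 4 * Qh (lineP f z v) ^ 3) *
      ((Qg (lineP f z v) ^ 2 - 3 * Qh (lineP f z v) ^ 3) *
      (2 * Qg (lineP f z v) ^ 2 - 9 * Qh (lineP f z v) ^ 3))))) := by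
    simp only [NP, map_mul, map_sub, map_add, map_pow, h2, h3, h4, h9, h27, lineU_coeff, Qh, Qg]
  rw [e]
  simp only [Ndg, ne_eq, mul_eq_zero, not_or, sub_eq_zero]
  constructor
  · rintro ⟨h0, h1, h2, h3, h4, h5⟩
    exact ⟨h0, h1, h2, h3, h4, h5⟩
  · rintro ⟨h0, h1⟩
    exact ⟨h0, h1.h0, h1.g0, h1.a, h1.b, h1.c⟩

lemma deg3_eval {q : Polynomial ℚ} (hq : q.natDegree ≤ 3) (t : ℚ) :
    q.eval t = q.coeff 0 + q.coeff 1 * t + q.coeff 2 * t ^ 2 + q.coeff 3 * t ^ 3 := by
  rw [Polynomial.eval_eq_sum_range' (n := 4) (by omega)]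
  simp [Finset.sum_range_succ]

/-- the discriminant vanishes -/
def Dz (q : Polynomial ℚ) : Prop := Qg q ^ 2 = 4 * Qh q ^ 3

/-- density on a line -/
lemma line_main {q : Polynomial ℚ} (hq : q.natDegree ≤ 3) (h0 : q.coeff 0 ≠ 0)
    (hc : ∃ w : ℚ, w ^ 3 = q.coeff 0) (h : Dz q ∨ NdHG (Qh q) (Qg q)) :
    Dense (rr {t : ℚ | ∃ w : ℚ, w ^ 3 = q.eval t}) := by
  obtain ⟨w, hw⟩ := hc
  have hw0 : w ≠ 0 := by
    rintro rfl
    apply h0
    rw [← hw]
    norm_num
  have e1 : he (q.coeff 0) (q.coeff 1) (q.coeff 2) (q.coeff 3) 1 0 = Qh q := by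
    unfold he Qh; ring
  have e2 : ja (q.coeff 0) (q.coeff 1) (q.coeff 2) (q.coeff 3) 1 0 = Qg q := by
    unfold ja Qg; ring
  have hset : {t : ℚ | ∃ w : ℚ, w ^ 3 = q.eval t} =
      cub (q.coeff 0) (q.coeff 1) (q.coeff 2) (q.coeff 3) := by
    ext t
    unfold cub
    simp only [mem_ofPred_eq, deg3_eval hq t]
  rw [hset]
  refine line_dense hw0 hw ?_
  rw [e1, e2]
  refine h.imp_left fun h => ?_
  have := syz (q.coeff 0) (q.coeff 1) (q.coeff 2) (q.coeff 3) 1 0
  rw [e1, e2, h] at this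
  have h2 : cf (q.coeff 0) (q.coeff 1) (q.coeff 2) (q.coeff 3) 1 0 = q.coeff 0 := by
    unfold cf; ring
  rw [h2] at this
  have h3 : ds (q.coeff 0) (q.coeff 1) (q.coeff 2) (q.coeff 3) * (27 * q.coeff 0 ^ 2) = 0 := by
    linarith
  exact (mul_eq_zero.1 h3).resolve_right (mul_ne_zero (by norm_num) (pow_ne_zero _ h0))

lemma aeval_line (P : MvPolynomial (Fin n) ℚ) (x y : Fin n → ℝ) (t : ℝ) :
    (aeval (fun i => Polynomial.C (x i) + Polynomial.C (y i - x i) * Polynomial.X) P :
      Polynomial ℝ).eval t = aeval (fun i => x i + t * (y i - x i)) P := by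
  induction P using MvPolynomial.induction_on with
  | C a => simp
  | add p q hp hq => simp only [map_add, Polynomial.eval_add, hp, hq]
  | mul_X p i hp =>
    simp only [map_mul, Polynomial.eval_mul, hp, aeval_X, Polynomial.eval_add, Polynomial.eval_C,
      Polynomial.eval_X]
    ring

/-- removing the zeros of a polynomial -/
lemma avoid (P : MvPolynomial (Fin n) ℚ) {A : Set (Fin n → ℚ)} {V : Set (Fin n → ℝ)}
    (hV : ∀ x ∈ V, ∀ y ∈ V, ∀ t : ℝ, (fun i => x i + t * (y i - x i)) ∈ V)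
    (hA : V ⊆ closure (rl A)) {s0 : Fin n → ℚ} (hs0 : (fun i => (s0 i : ℝ)) ∈ V)
    (hP : eval s0 P ≠ 0) : V ⊆ closure (rl {s | s ∈ A ∧ eval s P ≠ 0}) := by
  intro x hx
  rw [mem_closure_iff]
  intro U hU hxU
  set y : Fin n → ℝ := fun i => (s0 i : ℝ) with hy
  set q : Polynomial ℝ := aeval (fun i => Polynomial.C (x i) + Polynomial.C (y i - x i) *
    Polynomial.X) P with hq
  have hqe : ∀ t : ℝ, q.eval t = aeval (fun i => x i + t * (y i - x i)) P :=
    fun t => aeval_line P x y t
  have hq0 : q ≠ 0 := by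
    intro h0
    have h1 := hqe 1
    rw [h0, Polynomial.eval_zero] at h1
    apply hP
    have h2 : (fun i => x i + 1 * (y i - x i)) = fun i => (s0 i : ℝ) := by
      funext i
      simp only [hy]
      ring
    rw [h2, aeval_cast] at h1
    exact_mod_cast h1.symm
  have hd : Dense {t : ℝ | q.eval t ≠ 0} := by
    have hfin : {t : ℝ | q.eval t = 0}.Finite := Polynomial.finite_setOfPred_isRoot hq0
    exact hfin.countable.dense_compl ℝ
  have hc : Continuous fun t : ℝ => (fun i => x i + t * (y i - x i)) := by fun_prop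
  obtain ⟨t, ht1, ht2⟩ := hd.inter_open_nonempty _ (hU.preimage hc) ⟨0, by
    simp only [mem_preimage]
    convert hxU using 1
    funext i
    ring⟩
  have hx1 := hA (hV x hx y hs0 t)
  have hcP : Continuous fun z : Fin n → ℝ => (aeval z P : ℝ) := by
    have := MvPolynomial.continuous_eval (p := map (algebraMap ℚ ℝ) P)
    refine this.congr fun z => ?_
    rw [eval_map, aeval_def]
  obtain ⟨z, ⟨hz1, hz2⟩, s, hs, rfl⟩ := mem_closure_iff.1 hx1 (U ∩ {z | (aeval z P : ℝ) ≠ 0})
    (hU.inter (isOpen_ne_fun hcP continuous_const)) ⟨ht1, by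
      have ht3 : q.eval t ≠ 0 := ht2
      rw [hqe t] at ht3
      exact ht3⟩
  refine ⟨_, hz1, s, ⟨hs, ?_⟩, rfl⟩
  intro h0
  apply hz2
  rw [aeval_cast, h0]
  simp

/-- the rational tuples at which `f` is a cube -/
def Cb (f : MvPolynomial (Fin n) ℚ) : Set (Fin n → ℚ) := {s | ∃ w : ℚ, w ^ 3 = eval s f}

/-- **The coordinate case.** -/
theorem coord (g : MvPolynomial (Fin n) ℚ)
    (hdeg : ∀ (k : Fin n) (z : Fin n → ℚ), (lineP g z (Pi.single k 1)).natDegree ≤ 3)
    (h0 : eval 0 g ≠ 0) (hc : 0 ∈ Cb g)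
    (chain : ∀ k : Fin n, (∀ s : Fin n → ℚ, (∀ j, k ≤ j → s j = 0) → Dz (lineP g s (Pi.single k 1))) ∨
      ∃ s : Fin n → ℚ, (∀ j, k ≤ j → s j = 0) ∧ Ndg (lineP g s (Pi.single k 1))) :
    Dense (rl (Cb g)) := by
  have key : ∀ m : ℕ, m ≤ n → ∀ x : Fin n → ℝ, (∀ j : Fin n, m ≤ j.1 → x j = 0) →
      x ∈ closure (rl {s : Fin n → ℚ | (∀ j : Fin n, m ≤ j.1 → s j = 0) ∧ s ∈ Cb g}) := by
    intro m
    induction m with
    | zero =>
      intro _ x hx
      refine subset_closure ⟨0, ⟨fun _ _ => rfl, hc⟩, ?_⟩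
      funext i
      simpa using hx i (Nat.zero_le _)
    | succ m ih =>
      intro hm x hx
      have ih := ih (by omega)
      set k : Fin n := ⟨m, by omega⟩ with hk
      set A : Set (Fin n → ℚ) := {s : Fin n → ℚ | (∀ j : Fin n, m ≤ j.1 → s j = 0) ∧ s ∈ Cb g} with hA
      -- a polynomial
      obtain ⟨P, s0, hs0, hP0, hP⟩ : ∃ (P : MvPolynomial (Fin n) ℚ) (s0 : Fin n → ℚ),
          (∀ j : Fin n, m ≤ j.1 → s0 j = 0) ∧ eval s0 P ≠ 0 ∧
          ∀ s : Fin n → ℚ, (∀ j : Fin n, m ≤ j.1 → s j = 0) → eval s P ≠ 0 → eval s g ≠ 0 ∧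
            (Dz (lineP g s (Pi.single k 1)) ∨
              NdHG (Qh (lineP g s (Pi.single k 1))) (Qg (lineP g s (Pi.single k 1)))) := by
        rcases chain k with h | ⟨s0, hs0, h⟩
        · exact ⟨g, 0, fun _ _ => rfl, h0, fun s hs hg => ⟨hg, Or.inl (h s fun j hj => hs j hj)⟩⟩
        · refine ⟨NP g (Pi.single k 1), s0, fun j hj => hs0 j hj, (NP_eval _ _ _).2 h,
            fun s _ hg => ?_⟩
          have h1 := (NP_eval _ _ _).1 hg
          refine ⟨?_, Or.inr h1.2⟩
          have h2 := h1.1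
          rwa [Polynomial.coeff_zero_eq_eval_zero, lineP_eval, show (fun j => s j + 0 *
            (Pi.single k 1 : Fin n → ℚ) j) = s by funext j; ring] at h2
      set V : Set (Fin n → ℝ) := {x | ∀ j : Fin n, m ≤ j.1 → x j = 0} with hV
      have hav := avoid P (A := A) (V := V) (by
        intro x hx y hy t j hj
        simp only
        rw [hx j hj, hy j hj]
        ring) (fun x hx => ih x hx) (s0 := s0) (by
        intro j hj
        simp only
        rw [hs0 j hj]
        simp) hP0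
      rw [Metric.mem_closure_iff]
      intro ε hε
      have hx' : Function.update x k 0 ∈ V := by
        intro j hj
        by_cases hjk : j = k
        · rw [hjk, Function.update_self]
        · rw [Function.update_of_ne hjk]
          refine hx j ?_
          have : j.1 ≠ m := fun h => hjk (Fin.ext h)
          omega
      obtain ⟨_, ⟨s, ⟨hsA, hsP⟩, rfl⟩, hdist⟩ := Metric.mem_closure_iff.1 (hav hx') ε hε
      obtain ⟨hg, hnd⟩ := hP s hsA.1 hsP
      have hc0 : (lineP g s (Pi.single k 1)).coeff 0 = eval s g := by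
        rw [Polynomial.coeff_zero_eq_eval_zero, lineP_eval, show (fun j => s j + 0 *
            (Pi.single k 1 : Fin n → ℚ) j) = s by funext j; ring]
      have hden := line_main (hdeg k s) (by rw [hc0]; exact hg) (by rw [hc0]; exact hsA.2) hnd
      obtain ⟨_, ⟨t, ⟨w, hw⟩, rfl⟩, ht⟩ := Metric.mem_closure_iff.1 (hden (x k)) ε hε
      rw [lineP_eval] at hw
      have hsk : s k = 0 := hsA.1 k (le_refl _)
      have hup : (fun j => s j + t * (Pi.single k 1 : Fin n → ℚ) j) = Function.update s k t := by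
        funext j
        by_cases hjk : j = k
        · rw [hjk, Function.update_self, hsk, Pi.single_eq_same]
          ring
        · rw [Function.update_of_ne hjk, Pi.single_eq_of_ne hjk]
          ring
      rw [hup] at hw
      refine ⟨fun i => ((Function.update s k t i : ℚ) : ℝ), ⟨_, ⟨?_, w, hw⟩, rfl⟩, ?_⟩
      · intro j hj
        have hjk : j ≠ k := by
          rintro rfl
          simp only [hk] at hj
          omega
        rw [Function.update_of_ne hjk]
        exact hsA.1 j (by omega)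
      · rw [dist_pi_lt_iff hε] at hdist ⊢
        intro j
        by_cases hjk : j = k
        · rw [hjk, Function.update_self]
          exact ht
        · have := hdist j
          rw [Function.update_of_ne hjk] at this
          rw [Function.update_of_ne hjk]
          exact this
  intro x
  have := key n le_rfl x (fun j hj => absurd j.2 (by omega))
  refine closure_mono ?_ this
  rintro _ ⟨s, hs, rfl⟩
  exact ⟨s, hs.2, rfl⟩

/-! ### General directions -/

/-- the affine map given by a base point and directions -/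
noncomputable def chg (z0 : Fin n → ℚ) (v : Fin n → Fin n → ℚ) (f : MvPolynomial (Fin n) ℚ) :
    MvPolynomial (Fin n) ℚ :=
  aeval (fun i => C (z0 i) + ∑ j, C (v j i) * X j) f

lemma chg_eval (z0 : Fin n → ℚ) (v : Fin n → Fin n → ℚ) (f : MvPolynomial (Fin n) ℚ)
    (s : Fin n → ℚ) : eval s (chg z0 v f) = eval (fun i => z0 i + ∑ j, s j * v j i) f := by
  unfold chg
  induction f using MvPolynomial.induction_on with
  | C a => simp
  | add p q hp hq => simp only [map_add, hp, hq]
  | mul_X p i hp =>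
    simp only [map_mul, hp, aeval_X, map_add, eval_C, map_sum, eval_X]
    congr 2
    refine Finset.sum_congr rfl fun j _ => ?_
    ring

lemma chg_line (z0 : Fin n → ℚ) (v : Fin n → Fin n → ℚ) (f : MvPolynomial (Fin n) ℚ)
    (s : Fin n → ℚ) (k : Fin n) : lineP (chg z0 v f) s (Pi.single k 1) =
      lineP f (fun i => z0 i + ∑ j, s j * v j i) (v k) := by
  refine Polynomial.funext fun t => ?_
  rw [lineP_eval, lineP_eval, chg_eval]
  congr 2
  funext i
  have : ∀ j, (s j + t * (Pi.single k 1 : Fin n → ℚ) j) * v j i =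
      s j * v j i + t * ((Pi.single k 1 : Fin n → ℚ) j * v j i) := fun j => by ring
  simp only [this]
  rw [Finset.sum_add_distrib, ← Finset.mul_sum]
  have h1 : ∑ j, (Pi.single k 1 : Fin n → ℚ) j * v j i = v k i := by
    rw [Finset.sum_eq_single k]
    · rw [Pi.single_eq_same, one_mul]
    · intro j _ hj
      rw [Pi.single_eq_of_ne hj, zero_mul]
    · intro h
      exact absurd (Finset.mem_univ k) h
  rw [h1]
  ring

/-- **Density of the cube values.** -/
theorem dense_Cb (f : MvPolynomial (Fin n) ℚ) (z0 : Fin n → ℚ) (v : Fin n → Fin n → ℚ)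
    (hv : LinearIndependent ℚ v) (hdeg : ∀ (k : Fin n) (z : Fin n → ℚ), (lineP f z (v k)).natDegree ≤ 3)
    (h0 : eval z0 f ≠ 0) (hc : z0 ∈ Cb f)
    (chain : ∀ k : Fin n,
      (∀ s : Fin n → ℚ, (∀ j, k ≤ j → s j = 0) →
        Dz (lineP f (fun i => z0 i + ∑ j, s j * v j i) (v k))) ∨
      ∃ s : Fin n → ℚ, (∀ j, k ≤ j → s j = 0) ∧
        Ndg (lineP f (fun i => z0 i + ∑ j, s j * v j i) (v k))) :
    Dense (rl (Cb f)) := by
  have e0 : (fun i => z0 i + ∑ j, (0 : Fin n → ℚ) j * v j i) = z0 := by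
    funext i
    simp
  have h1 := coord (chg z0 v f) (fun k z => by rw [chg_line]; exact hdeg k _)
    (by rw [chg_eval, e0]; exact h0)
    (by
      obtain ⟨w, hw⟩ := hc
      exact ⟨w, by rw [chg_eval, e0]; exact hw⟩)
    (fun k => by
      simp only [chg_line]
      exact chain k)
  -- the affine map is onto
  set M : Matrix (Fin n) (Fin n) ℚ := Matrix.of v with hM
  have hMu : IsUnit M := (Matrix.linearIndependent_rows_iff_isUnit (A := M)).1 hv
  have hMR : IsUnit (M.map (algebraMap ℚ ℝ)) := hMu.map (algebraMap ℚ ℝ).mapMatrix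
  set L : (Fin n → ℝ) → (Fin n → ℝ) := fun s i => z0 i + ∑ j, s j * (v j i : ℝ) with hL
  have hLc : Continuous L := by
    refine continuous_pi fun i => ?_
    refine continuous_const.add (continuous_finsetSum _ fun j _ => ?_)
    exact (continuous_apply j).mul continuous_const
  intro x
  obtain ⟨s, hs⟩ : ∃ s, L s = x := by
    obtain ⟨N, hN⟩ := hMR.exists_left_inv
    set y : Fin n → ℝ := fun i => x i - z0 i with hy
    refine ⟨Matrix.vecMul y N, ?_⟩
    funext i
    have h2 : Matrix.vecMul (Matrix.vecMul y N) (M.map (algebraMap ℚ ℝ)) = y := by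
      rw [Matrix.vecMul_vecMul, hN, Matrix.vecMul_one]
    have h3 := congrFun h2 i
    simp only [Matrix.vecMul, dotProduct, Matrix.map_apply, hM, Matrix.of_apply] at h3
    simp only [hL]
    have h4 : ∑ j, Matrix.vecMul y N j * (v j i : ℝ) = y i := by
      rw [← h3]
      rfl
    rw [h4, hy]
    ring
  have h5 : L s ∈ closure (L '' rl (Cb (chg z0 v f))) :=
    (image_closure_subset_closure_image hLc) ⟨s, h1 s, rfl⟩
  rw [hs] at h5
  refine closure_mono ?_ h5
  rintro _ ⟨_, ⟨r, ⟨w, hw⟩, rfl⟩, rfl⟩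
  rw [chg_eval] at hw
  refine ⟨_, ⟨w, hw⟩, ?_⟩
  funext i
  simp only [hL]
  push_cast
  rfl

/-! ### The graph -/

lemma cont_aeval (f : MvPolynomial (Fin n) ℚ) :
    Continuous fun z : Fin n → ℝ => (aeval z f : ℝ) := by
  have := MvPolynomial.continuous_eval (p := map (algebraMap ℚ ℝ) f)
  refine this.congr fun z => ?_
  rw [eval_map, aeval_def]

/-- the closure of the set of the rational points of `w³ = f(z)` lies over the closure of the set
of the `z` -/
theorem graph_closure (f : MvPolynomial (Fin n) ℚ) (D : Set (Fin n → ℚ)) (hD : D ⊆ Cb f) :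
    closure (rl {u : Fin (n + 1) → ℚ | (fun k => u k.succ) ∈ D ∧
      u 0 ^ 3 = eval (fun k => u k.succ) f}) =
    {x : Fin (n + 1) → ℝ | (fun k => x k.succ) ∈ closure (rl D) ∧
      x 0 ^ 3 = aeval (fun k => x k.succ) f} := by
  apply Subset.antisymm
  · have hc : Continuous fun x : Fin (n + 1) → ℝ => (fun k : Fin n => x k.succ) := by fun_prop
    refine closure_minimal ?_ ?_
    · rintro _ ⟨u, ⟨hu, hu'⟩, rfl⟩
      refine ⟨subset_closure ⟨_, hu, rfl⟩, ?_⟩
      have h3 := aeval_cast (fun k : Fin n => u k.succ) f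
      rw [← hu'] at h3
      push_cast at h3
      exact h3.symm
    · exact (isClosed_closure.preimage hc).inter (isClosed_eq ((continuous_apply 0).pow 3)
        ((cont_aeval f).comp hc))
  · rintro x ⟨h1, h2⟩
    obtain ⟨u, hu, hu'⟩ := mem_closure_iff_seq_limit.1 h1
    have hx : x = Fin.cons (cbrt (aeval (fun k => x k.succ) f)) (fun k => x k.succ) := by
      funext i
      refine Fin.cases ?_ (fun k => ?_) i
      · rw [Fin.cons_zero, ← eq_cbrt h2]
      · rw [Fin.cons_succ]
    have hlim : Tendsto (fun m => (Fin.cons (cbrt (aeval (u m) f)) (u m) : Fin (n + 1) → ℝ)) atTop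
        (𝓝 x) := by
      rw [hx, tendsto_pi_nhds]
      intro i
      refine Fin.cases ?_ (fun k => ?_) i
      · simp only [Fin.cons_zero]
        exact (cbrt_cont.tendsto _).comp (((cont_aeval f).tendsto _).comp hu')
      · simp only [Fin.cons_succ]
        exact (tendsto_pi_nhds.1 hu') k
    refine mem_closure_of_tendsto hlim (Eventually.of_forall fun m => ?_)
    obtain ⟨r, hr, hrm⟩ := hu m
    obtain ⟨w, hw⟩ := hD hr
    refine ⟨Fin.cons w r, ⟨by simpa using hr, by simpa using hw⟩, ?_⟩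
    have h3 : cbrt (aeval (u m) f) = w := by
      rw [hrm, aeval_cast]
      refine (eq_cbrt ?_).symm
      exact_mod_cast hw
    funext i
    refine Fin.cases ?_ (fun k => ?_) i
    · simp only [Fin.cons_zero]
      exact h3
    · simp only [Fin.cons_succ]
      rw [hrm]

end Pool.Agent.D0H6.TC
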