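import Pool.Agent.D0H6.TC.Sec

/-!
# Products `w³ = c ∏ f_i(x_i)^{e_i}` (helper6)
-/

set_option autoImplicit false
set_option linter.unusedSimpArgs false

namespace Pool.Agent.D0H6.TC

open Set Filter Topology
open Pool.Agent.TH729.SQ (rl aeval_cast)

/-- The rational number `β` is good for the cubic `q`: the discriminant (as a cubic) vanishes, or
the parameter `0` of `q(β + T)` is not degenerate, or `q(β) = 0`. -/
def OK (q : Polynomial ℚ) (β : ℚ) : Prop :=
  Dz (Polynomial.taylor β q) ∨ NdHG (Qh (Polynomial.taylor β q)) (Qg (Polynomial.taylor β q))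

section Bad

open Polynomial

/-- `Qh` of the translates -/
noncomputable def hP (q : ℚ[X]) : ℚ[X] :=
  hasseDeriv 1 q ^ 2 - 3 * q * hasseDeriv 2 q
/-- `Qg` of the translates -/
noncomputable def gP (q : ℚ[X]) : ℚ[X] :=
  2 * hasseDeriv 1 q ^ 3 - 9 * q * hasseDeriv 1 q * hasseDeriv 2 q +
    27 * q ^ 2 * hasseDeriv 3 q

lemma hP_eval (q : ℚ[X]) (β : ℚ) : (hP q).eval β = Qh (taylor β q) := by
  unfold hP Qh
  simp only [taylor_coeff, eval_sub, eval_mul, eval_pow, eval_ofNat, hasseDeriv_zero,
    LinearMap.id_coe, id_eq]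

lemma gP_eval (q : ℚ[X]) (β : ℚ) : (gP q).eval β = Qg (taylor β q) := by
  unfold gP Qg
  simp only [taylor_coeff, eval_sub, eval_add, eval_mul, eval_pow, eval_ofNat, hasseDeriv_zero,
    LinearMap.id_coe, id_eq]

lemma cubic_eq {q : ℚ[X]} (hq : q.natDegree ≤ 3) :
    q = C (q.coeff 0) + C (q.coeff 1) * X + C (q.coeff 2) * X ^ 2 + C (q.coeff 3) * X ^ 3 := by
  conv_lhs => rw [Polynomial.as_sum_range' q 4 (by omega)]
  simp [Finset.sum_range_succ, ← C_mul_X_pow_eq_monomial]

lemma taylor_c {q : ℚ[X]} (hq : q.natDegree ≤ 3) (β : ℚ) :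
    (taylor β q).coeff 0 = q.coeff 0 + q.coeff 1 * β + q.coeff 2 * β ^ 2 + q.coeff 3 * β ^ 3 ∧
    (taylor β q).coeff 1 = q.coeff 1 + 2 * q.coeff 2 * β + 3 * q.coeff 3 * β ^ 2 ∧
    (taylor β q).coeff 2 = q.coeff 2 + 3 * q.coeff 3 * β ∧
    (taylor β q).coeff 3 = q.coeff 3 := by
  have key : ∀ k, (taylor β q).coeff k =
      ∑ i ∈ Finset.range 4, (i.choose k : ℚ) * q.coeff i * β ^ (i - k) := by
    intro k
    rw [taylor_coeff, hasseDeriv_apply, sum_over_range' _ _ 4 (by omega), eval_finsetSum]
    · refine Finset.sum_congr rfl fun i _ => ?_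
      rw [eval_monomial]
    · intro i
      simp
  refine ⟨?_, ?_, ?_, ?_⟩ <;> rw [key] <;> simp [Finset.sum_range_succ, Nat.choose]

lemma taylor_ds {q : ℚ[X]} (hq : q.natDegree ≤ 3) (β : ℚ) :
    Qg (taylor β q) ^ 2 - 4 * Qh (taylor β q) ^ 3 =
      -27 * q.eval β ^ 2 * ds (q.coeff 0) (q.coeff 1) (q.coeff 2) (q.coeff 3) := by
  obtain ⟨h0, h1, h2, h3⟩ := taylor_c hq β
  have he : q.eval β = q.coeff 0 + q.coeff 1 * β + q.coeff 2 * β ^ 2 + q.coeff 3 * β ^ 3 := by
    rw [deg3_eval hq]
  unfold Qg Qh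
  rw [he, h0, h1, h2, h3]
  unfold ds
  ring

lemma notOK_finite {q : ℚ[X]} (hq : q.natDegree ≤ 3) : {β : ℚ | ¬ OK q β}.Finite := by
  by_cases hD : ds (q.coeff 0) (q.coeff 1) (q.coeff 2) (q.coeff 3) = 0
  · have : {β : ℚ | ¬ OK q β} = ∅ := by
      refine eq_empty_of_forall_notMem fun β hβ => hβ (Or.inl ?_)
      have := taylor_ds hq β
      rw [hD] at this
      unfold Dz
      linarith
    rw [this]
    exact finite_empty
  -- a complex root
  have hdeg : 0 < q.degree := by
    by_contra h
    have h0 : q.natDegree = 0 := natDegree_eq_zero_iff_degree_le_zero.2 (not_lt.1 h)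
    apply hD
    rw [coeff_eq_zero_of_natDegree_lt (n := 2) (by omega), coeff_eq_zero_of_natDegree_lt (n := 3)
      (by omega)]
    unfold ds
    ring
  obtain ⟨ρ, hρ⟩ : ∃ ρ : ℂ, aeval ρ q = 0 := by
    obtain ⟨ρ, hρ⟩ := IsAlgClosed.exists_root (q.map (algebraMap ℚ ℂ)) (by
      rw [degree_map]
      exact hdeg.ne')
    exact ⟨ρ, by rw [aeval_def, ← eval_map]; exact hρ⟩
  set δ : ℂ := aeval ρ (hasseDeriv 1 q) with hδ
  have hδ0 : δ ≠ 0 := by
    intro h0
    have e1 : aeval ρ q = (q.coeff 0 : ℂ) + q.coeff 1 * ρ + q.coeff 2 * ρ ^ 2 +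
        q.coeff 3 * ρ ^ 3 := by
      conv_lhs => rw [cubic_eq hq]
      simp
    have e2 : δ = (q.coeff 1 : ℂ) + 2 * q.coeff 2 * ρ + 3 * q.coeff 3 * ρ ^ 2 := by
      rw [hδ, hasseDeriv_one]
      conv_lhs => rw [cubic_eq hq]
      simp
      ring
    rw [e1] at hρ
    rw [e2] at h0
    apply hD
    have : ((ds (q.coeff 0) (q.coeff 1) (q.coeff 2) (q.coeff 3) : ℚ) : ℂ) = 0 := by
      have hb : (q.coeff 1 : ℂ) = -(2 * q.coeff 2 * ρ + 3 * q.coeff 3 * ρ ^ 2) := by
        linear_combination h0
      have ha : (q.coeff 0 : ℂ) = -(q.coeff 1 * ρ + q.coeff 2 * ρ ^ 2 + q.coeff 3 * ρ ^ 3) := by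
        linear_combination hρ
      rw [hb] at ha
      unfold ds
      push_cast
      rw [ha, hb]
      ring
    exact_mod_cast this
  have eh : aeval ρ (hP q) = δ ^ 2 := by
    unfold hP
    simp only [map_sub, map_mul, map_pow, hρ, ← hδ]
    ring
  have eg : aeval ρ (gP q) = 2 * δ ^ 3 := by
    unfold gP
    simp only [map_sub, map_add, map_mul, map_pow, hρ, ← hδ, map_ofNat]
    ring
  have n1 : hP q ≠ 0 := by
    intro h
    rw [h, map_zero] at eh
    exact pow_ne_zero 2 hδ0 eh.symm
  have n2 : gP q ≠ 0 := by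
    intro h
    rw [h, map_zero] at eg
    exact mul_ne_zero two_ne_zero (pow_ne_zero 3 hδ0) eg.symm
  have n3 : gP q ^ 2 - 3 * hP q ^ 3 ≠ 0 := by
    intro h
    have h' : aeval ρ (gP q ^ 2 - 3 * hP q ^ 3) = 0 := by rw [h, map_zero]
    simp only [map_sub, map_mul, map_pow, eh, eg, map_ofNat] at h'
    exact pow_ne_zero 6 hδ0 (by linear_combination h')
  have n4 : 2 * gP q ^ 2 - 9 * hP q ^ 3 ≠ 0 := by
    intro h
    have h' : aeval ρ (2 * gP q ^ 2 - 9 * hP q ^ 3) = 0 := by rw [h, map_zero]
    simp only [map_sub, map_mul, map_pow, eh, eg, map_ofNat] at h'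
    exact pow_ne_zero 6 hδ0 (by linear_combination -h')
  refine (Polynomial.finite_setOfPred_isRoot
    (mul_ne_zero n1 (mul_ne_zero n2 (mul_ne_zero n3 n4)))).subset ?_
  intro β hβ
  simp only [OK, mem_ofPred_eq, not_or] at hβ
  obtain ⟨g1, g2⟩ := hβ
  change (hP q * (gP q * ((gP q ^ 2 - 3 * hP q ^ 3) * (2 * gP q ^ 2 - 9 * hP q ^ 3)))).eval β = 0
  by_contra hne
  apply g2
  simp only [eval_mul, eval_sub, eval_pow, eval_ofNat, hP_eval, gP_eval, ne_eq, mul_eq_zero,
    not_or, sub_eq_zero] at hne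
  exact ⟨hne.1, hne.2.1, g1, hne.2.2.1, hne.2.2.2⟩

end Bad

/-! ### One line -/

lemma one_line {q : Polynomial ℚ} (hq : q.natDegree ≤ 3) {K β : ℚ} (h0 : K * q.eval β ≠ 0)
    (hc : ∃ w : ℚ, w ^ 3 = K * q.eval β) (hok : OK q β) :
    Dense (rr {t : ℚ | ∃ w : ℚ, w ^ 3 = K * q.eval t}) := by
  have hK : K ≠ 0 := left_ne_zero_of_mul h0
  set q' : Polynomial ℚ := Polynomial.C K * Polynomial.taylor β q with hq'
  have hdeg : q'.natDegree ≤ 3 := by
    rw [hq', Polynomial.natDegree_C_mul hK, Polynomial.natDegree_taylor]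
    exact hq
  have hev : ∀ t, q'.eval t = K * q.eval (t + β) := by
    intro t
    rw [hq', Polynomial.eval_mul, Polynomial.eval_C, Polynomial.taylor_eval]
  have hco : ∀ k, q'.coeff k = K * (Polynomial.taylor β q).coeff k := by
    intro k
    rw [hq', Polynomial.coeff_C_mul]
  have hQh : Qh q' = K ^ 2 * Qh (Polynomial.taylor β q) := by
    unfold Qh
    simp only [hco]
    ring
  have hQg : Qg q' = K ^ 3 * Qg (Polynomial.taylor β q) := by
    unfold Qg
    simp only [hco]
    ring
  have hc0 : q'.coeff 0 = K * q.eval β := by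
    rw [Polynomial.coeff_zero_eq_eval_zero, hev, zero_add]
  have hK6 : K ^ 6 ≠ 0 := pow_ne_zero _ hK
  have hmain := line_main hdeg (by rw [hc0]; exact h0) (by rw [hc0]; exact hc) (by
    rcases hok with h | h
    · left
      unfold Dz at h ⊢
      rw [hQh, hQg]
      linear_combination K ^ 6 * h
    · right
      rw [hQh, hQg]
      refine ⟨mul_ne_zero (pow_ne_zero _ hK) h.h0, mul_ne_zero (pow_ne_zero _ hK) h.g0,
        fun e => h.a ?_, fun e => h.b ?_, fun e => h.c ?_⟩ <;>
        exact mul_left_cancel₀ hK6 (by linear_combination e))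
  intro y
  have h1 := hmain (y - β)
  have hcont : Continuous fun t : ℝ => t + (β : ℝ) := by fun_prop
  have h2 := image_closure_subset_closure_image (f := fun t : ℝ => t + (β : ℝ)) hcont
    ⟨y - β, h1, rfl⟩
  simp only [sub_add_cancel] at h2
  refine closure_mono ?_ h2
  rintro _ ⟨_, ⟨t, ⟨w, hw⟩, rfl⟩, rfl⟩
  refine ⟨t + β, ⟨w, by rw [hw, hev]⟩, ?_⟩
  push_cast
  rfl

lemma pow_line {q : Polynomial ℚ} (hq : q.natDegree ≤ 3) {K β : ℚ} {e : ℕ}
    (h0 : K * q.eval β ^ e ≠ 0) (hc : ∃ w : ℚ, w ^ 3 = K * q.eval β ^ e) (hok : OK q β) :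
    Dense (rr {t : ℚ | ∃ w : ℚ, w ^ 3 = K * q.eval t ^ e}) := by
  have hK : K ≠ 0 := left_ne_zero_of_mul h0
  have hqe : q.eval β ^ e ≠ 0 := right_ne_zero_of_mul h0
  obtain ⟨w, hw⟩ := hc
  obtain ⟨k, r, hr, rfl⟩ : ∃ k r : ℕ, r < 3 ∧ e = 3 * k + r :=
    ⟨e / 3, e % 3, Nat.mod_lt _ (by norm_num), by omega⟩
  have hk : (q.eval β ^ k) ≠ 0 := by
    intro h
    apply hqe
    rw [pow_add, mul_comm 3 k, pow_mul, h]
    ring
  interval_cases r
  · -- the exponent is a multiple of 3
    have hall : {t : ℚ | ∃ w : ℚ, w ^ 3 = K * q.eval t ^ (3 * k + 0)} = univ := by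
      refine eq_univ_of_forall fun t => ⟨w / q.eval β ^ k * q.eval t ^ k, ?_⟩
      have h1 : (w / q.eval β ^ k) ^ 3 = K := by
        rw [div_pow, hw]
        rw [add_zero, mul_comm 3 k, pow_mul]
        field_simp
      rw [mul_pow, h1]
      ring
    rw [hall]
    exact rat_dense
  · -- the exponent is 1 mod 3
    have hq0 : q.eval β ≠ 0 := by
      intro h
      apply hqe
      rw [h]
      exact zero_pow (by omega)
    refine (one_line hq (K := K) (mul_ne_zero hK hq0) ⟨w / q.eval β ^ k, ?_⟩ hok).mono ?_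
    · rw [div_pow, hw]
      field_simp
      ring
    · rintro _ ⟨t, ⟨u, hu⟩, rfl⟩
      refine ⟨t, ⟨u * q.eval t ^ k, ?_⟩, rfl⟩
      rw [mul_pow, hu]
      ring
  · -- the exponent is 2 mod 3
    have hq0 : q.eval β ≠ 0 := by
      intro h
      apply hqe
      rw [h]
      exact zero_pow (by omega)
    refine (one_line hq (K := K ^ 2) (mul_ne_zero (pow_ne_zero _ hK) hq0)
      ⟨(w / q.eval β ^ k) ^ 2 / q.eval β, ?_⟩ hok).mono ?_
    · have h1 : (w / q.eval β ^ k) ^ 3 = K * q.eval β ^ 2 := by
        rw [div_pow, hw]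
        field_simp
        ring
      have h2 : ((w / q.eval β ^ k) ^ 2 / q.eval β) ^ 3 =
          ((w / q.eval β ^ k) ^ 3) ^ 2 / q.eval β ^ 3 := by
        rw [div_pow]
        ring
      rw [h2, h1]
      field_simp
    · rintro _ ⟨t, ⟨u, hu⟩, rfl⟩
      refine ⟨t, ⟨u ^ 2 / K * q.eval t ^ k, ?_⟩, rfl⟩
      have : (u ^ 2 / K * q.eval t ^ k) ^ 3 = (u ^ 3) ^ 2 / K ^ 3 * q.eval t ^ (3 * k) := by
        rw [mul_pow, div_pow]
        ring
      rw [this, hu]
      field_simp
      ring

lemma pow_line' {q : Polynomial ℚ} (hq : q.natDegree ≤ 3) {K β : ℚ} {e : ℕ}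
    (h0 : K * q.eval β ^ e ≠ 0) (hc : ∃ w : ℚ, w ^ 3 = K * q.eval β ^ e) (hok : OK q β) :
    Dense (rr {t : ℚ | K * q.eval t ^ e ≠ 0 ∧ ∃ w : ℚ, w ^ 3 = K * q.eval t ^ e}) := by
  have hK : K ≠ 0 := left_ne_zero_of_mul h0
  have hqe : q.eval β ^ e ≠ 0 := right_ne_zero_of_mul h0
  have hfin : {t : ℚ | q.eval t ^ e = 0}.Finite := by
    rcases Nat.eq_zero_or_pos e with rfl | he
    · simp
    · have hq0 : q ≠ 0 := by
        rintro rfl
        apply hqe
        rw [Polynomial.eval_zero]
        exact zero_pow (by omega)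
      refine (Polynomial.finite_setOfPred_isRoot hq0).subset fun t ht => ?_
      exact (pow_eq_zero_iff (by omega)).1 ht
  refine ((pow_line hq h0 hc hok).sdiff_finite (hfin.image fun t : ℚ => (t : ℝ))).mono ?_
  rintro _ ⟨⟨t, ht, rfl⟩, h2⟩
  refine ⟨t, ⟨mul_ne_zero hK fun h => h2 ⟨t, h, rfl⟩, ht⟩, rfl⟩

/-! ### Several variables -/

variable {n : ℕ}

/-- the value `c ∏ f_i(x_i)^{e_i}` -/
def pV (c : ℚ) (f : Fin n → Polynomial ℚ) (e : Fin n → ℕ) (x : Fin n → ℚ) : ℚ :=
  c * ∏ i, (f i).eval (x i) ^ e i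

lemma pV_update (c : ℚ) (f : Fin n → Polynomial ℚ) (e : Fin n → ℕ) (x : Fin n → ℚ) (k : Fin n)
    (t : ℚ) : pV c f e (Function.update x k t) =
      (c * ∏ i ∈ Finset.univ.erase k, (f i).eval (x i) ^ e i) * (f k).eval t ^ e k := by
  unfold pV
  rw [← Finset.mul_prod_erase _ _ (Finset.mem_univ k), Function.update_self]
  have : ∏ i ∈ Finset.univ.erase k, (f i).eval (Function.update x k t i) ^ e i =
      ∏ i ∈ Finset.univ.erase k, (f i).eval (x i) ^ e i := by
    refine Finset.prod_congr rfl fun i hi => ?_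
    rw [Function.update_of_ne (Finset.ne_of_mem_erase hi)]
  rw [this]
  ring

lemma prod_dense {c : ℚ} {f : Fin n → Polynomial ℚ} {e : Fin n → ℕ}
    (hdeg : ∀ i, (f i).natDegree ≤ 3) {x : Fin n → ℚ} (h0 : pV c f e x ≠ 0)
    (hc : ∃ w : ℚ, w ^ 3 = pV c f e x) (T : Finset (Fin n)) (hok : ∀ k ∈ T, OK (f k) (x k)) :
    {y : Fin n → ℝ | ∀ i ∉ T, y i = x i} ⊆ closure (rl {y : Fin n → ℚ | (∀ i ∉ T, y i = x i) ∧
      pV c f e y ≠ 0 ∧ ∃ w : ℚ, w ^ 3 = pV c f e y}) := by
  induction T using Finset.induction_on with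
  | empty =>
    intro y hy
    refine subset_closure ⟨x, ⟨fun _ _ => rfl, h0, hc⟩, ?_⟩
    funext i
    exact hy i (Finset.notMem_empty i)
  | insert k T hk ih =>
    have ih := ih fun j hj => hok j (Finset.mem_insert_of_mem hj)
    intro y hy
    rw [Metric.mem_closure_iff]
    intro ε hε
    have hy' : Function.update y k (x k : ℝ) ∈ {y : Fin n → ℝ | ∀ i ∉ T, y i = x i} := by
      intro i hi
      by_cases hik : i = k
      · subst hik
        rw [Function.update_self]
      · rw [Function.update_of_ne hik]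
        exact hy i (by simp [hik, hi])
    obtain ⟨_, ⟨z, ⟨hz1, hz2, hz3⟩, rfl⟩, hdist⟩ := Metric.mem_closure_iff.1 (ih hy') ε hε
    have hzk : z k = x k := hz1 k hk
    set K : ℚ := c * ∏ i ∈ Finset.univ.erase k, (f i).eval (z i) ^ e i with hK
    have hup : ∀ t, pV c f e (Function.update z k t) = K * (f k).eval t ^ e k :=
      fun t => pV_update c f e z k t
    have hself : pV c f e z = K * (f k).eval (x k) ^ e k := by
      rw [← hup, ← hzk, Function.update_eq_self]
    have hden := pow_line' (hdeg k) (K := K) (β := x k) (e := e k) (by rw [← hself]; exact hz2)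
      (by rw [← hself]; exact hz3) (hok k (Finset.mem_insert_self k T))
    obtain ⟨_, ⟨t, ⟨ht1, ht2⟩, rfl⟩, ht⟩ := Metric.mem_closure_iff.1 (hden (y k)) ε hε
    rw [← hup] at ht1 ht2
    refine ⟨_, ⟨Function.update z k t, ⟨?_, ht1, ht2⟩, rfl⟩, ?_⟩
    · intro i hi
      rw [Finset.mem_insert, not_or] at hi
      rw [Function.update_of_ne hi.1]
      exact hz1 i hi.2
    · rw [dist_pi_lt_iff hε] at hdist ⊢
      intro j
      by_cases hjk : j = k
      · subst hjk
        rw [Function.update_self]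
        exact ht
      · have := hdist j
        rw [Function.update_of_ne hjk] at this
        rw [Function.update_of_ne hjk]
        exact this

/-! ### The structure of the closure -/

/-- the real points of a rational coordinate subspace, given by a partial assignment -/
def Vr (p : Fin n → Option ℚ) : Set (Fin n → ℝ) := {y | ∀ i β, p i = some β → y i = β}

/-- the rational points over a coordinate subspace -/
def Ar (c : ℚ) (f : Fin n → Polynomial ℚ) (e : Fin n → ℕ) (p : Fin n → Option ℚ) :
    Set (Fin n → ℚ) :=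
  {y | (∀ i β, p i = some β → y i = β) ∧ ∃ w : ℚ, w ^ 3 = pV c f e y}

/-- the exceptional values of a polynomial -/
def Exc (q : Polynomial ℚ) (β : ℚ) : Prop := (q ≠ 0 ∧ q.eval β = 0) ∨ ¬ OK q β

lemma exc_finite {q : Polynomial ℚ} (hq : q.natDegree ≤ 3) : {β : ℚ | Exc q β}.Finite := by
  have h1 : {β : ℚ | q ≠ 0 ∧ q.eval β = 0}.Finite := by
    by_cases h : q = 0
    · simp [h]
    · exact (Polynomial.finite_setOfPred_isRoot h).subset fun β hβ => hβ.2
  exact (h1.union (notOK_finite hq)).subset fun β hβ => hβ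

lemma Vr_closed (p : Fin n → Option ℚ) : IsClosed (Vr p) := by
  have : Vr p = ⋂ i, ⋂ β, ⋂ (_ : p i = some β), {y : Fin n → ℝ | y i = (β : ℝ)} := by
    ext y
    simp [Vr]
  rw [this]
  exact isClosed_iInter fun i => isClosed_iInter fun β => isClosed_iInter fun _ =>
    isClosed_eq (continuous_apply i) continuous_const

lemma rl_Ar_sub (c : ℚ) (f : Fin n → Polynomial ℚ) (e : Fin n → ℕ) (p : Fin n → Option ℚ) :
    closure (rl (Ar c f e p)) ⊆ Vr p := by
  refine closure_minimal ?_ (Vr_closed p)
  rintro _ ⟨y, hy, rfl⟩ i β hi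
  simp only
  rw [hy.1 i β hi]

lemma rl_iUnion {ι : Type*} (A : ι → Set (Fin n → ℚ)) : rl (⋃ i, A i) = ⋃ i, rl (A i) := by
  ext y
  simp only [rl, mem_iUnion, mem_ofPred_eq]
  constructor
  · rintro ⟨r, ⟨i, hi⟩, rfl⟩
    exact ⟨i, r, hi, rfl⟩
  · rintro ⟨i, r, hi, rfl⟩
    exact ⟨r, ⟨i, hi⟩, rfl⟩

/-- **The closure of the rational points over a coordinate subspace.** -/
theorem structure_Ar {c : ℚ} {f : Fin n → Polynomial ℚ} {e : Fin n → ℕ}
    (hdeg : ∀ i, (f i).natDegree ≤ 3) : ∀ (m : ℕ) (p : Fin n → Option ℚ),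
    (Finset.univ.filter fun i => p i = none).card = m →
    ∃ S : Set (Fin n → Option ℚ), S.Finite ∧ closure (rl (Ar c f e p)) = ⋃ q ∈ S, Vr q ∧
      ∀ q ∈ S, ∀ i β, q i = some β → p i = some β ∨ Exc (f i) β := by
  classical
  intro m
  induction m using Nat.strong_induction_on with
  | _ m ih =>
    intro p hm
    -- a dense case
    have hdense : closure (rl (Ar c f e p)) = Vr p →
        ∃ S : Set (Fin n → Option ℚ), S.Finite ∧ closure (rl (Ar c f e p)) = ⋃ q ∈ S, Vr q ∧
          ∀ q ∈ S, ∀ i β, q i = some β → p i = some β ∨ Exc (f i) β := by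
      intro h
      refine ⟨{p}, finite_singleton p, by simpa using h, ?_⟩
      rintro q rfl i β hi
      exact Or.inl hi
    by_cases h0 : ∀ y : Fin n → ℚ, (∀ i β, p i = some β → y i = β) → pV c f e y = 0
    · -- the polynomial vanishes on the subspace
      apply hdense
      refine (rl_Ar_sub c f e p).antisymm ?_
      have hA : Ar c f e p = {y | ∀ i β, p i = some β → y i = β} := by
        ext y
        constructor
        · exact fun h => h.1
        · exact fun h => ⟨h, 0, by rw [h0 y h]; norm_num⟩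
      rw [hA]
      intro y hy
      rw [Metric.mem_closure_iff]
      intro ε hε
      choose r hr using fun i => Metric.denseRange_iff.1 (Rat.denseRange_cast (𝕜 := ℝ)) (y i) ε hε
      refine ⟨_, ⟨fun i => (p i).getD (r i), fun i β hi => by simp [hi], rfl⟩, ?_⟩
      rw [dist_pi_lt_iff hε]
      intro i
      change dist (y i) (((p i).getD (r i) : ℚ) : ℝ) < ε
      rcases hp : p i with _ | β
      · simpa using hr i
      · rw [Option.getD_some, hy i β hp, dist_self]
        exact hε
    · push Not at h0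
      obtain ⟨y0, hy0, hy0'⟩ := h0
      by_cases h1 : ∃ x : Fin n → ℚ, (∀ i β, p i = some β → x i = β) ∧ pV c f e x ≠ 0 ∧
          (∃ w : ℚ, w ^ 3 = pV c f e x) ∧ ∀ k, p k = none → OK (f k) (x k)
      · obtain ⟨x, hx1, hx2, hx3, hx4⟩ := h1
        apply hdense
        refine (rl_Ar_sub c f e p).antisymm ?_
        intro y hy
        have hd := prod_dense hdeg hx2 hx3 (Finset.univ.filter fun i => p i = none)
          (fun k hk => hx4 k (by simpa using hk))
        have hmem : y ∈ {y : Fin n → ℝ | ∀ i ∉ Finset.univ.filter fun i => p i = none,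
            y i = x i} := by
          intro i hi
          simp only [Finset.mem_filter, Finset.mem_univ, true_and] at hi
          obtain ⟨β, hβ⟩ := Option.ne_none_iff_exists'.1 hi
          rw [hy i β hβ, hx1 i β hβ]
        refine closure_mono ?_ (hd hmem)
        rintro _ ⟨z, ⟨hz1, _, hz3⟩, rfl⟩
        refine ⟨z, ⟨fun i β hi => ?_, hz3⟩, rfl⟩
        rw [hz1 i (by simp [hi]), hx1 i β hi]
      · -- finitely many smaller subspaces
        push Not at h1
        set J : Type := Σ i : {i : Fin n // p i = none}, {β : ℚ // Exc (f i.1) β} with hJ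
        have hfin : ∀ i : {i : Fin n // p i = none}, Finite {β : ℚ // Exc (f i.1) β} :=
          fun i => (exc_finite (hdeg i.1)).to_subtype
        have : Finite J := inferInstance
        have hunion : Ar c f e p = ⋃ j : J, Ar c f e (Function.update p j.1.1 (some j.2.1)) := by
          ext y
          rw [mem_iUnion]
          constructor
          · rintro ⟨hy1, hy2⟩
            have hex : ∃ i, p i = none ∧ Exc (f i) (y i) := by
              by_cases hF : pV c f e y = 0
              · have hc0 : c ≠ 0 := by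
                  intro h
                  apply hy0'
                  unfold pV
                  rw [h, zero_mul]
                unfold pV at hF
                obtain ⟨i, _, hi⟩ := Finset.prod_eq_zero_iff.1 ((mul_eq_zero.1 hF).resolve_left hc0)
                have hei : e i ≠ 0 := by
                  intro h
                  rw [h] at hi
                  simp at hi
                have hfi : (f i).eval (y i) = 0 := (pow_eq_zero_iff hei).1 hi
                have hy0i : (f i).eval (y0 i) ≠ 0 := by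
                  intro h
                  apply hy0'
                  unfold pV
                  rw [Finset.prod_eq_zero (Finset.mem_univ i) (by rw [h, zero_pow hei]), mul_zero]
                refine ⟨i, ?_, Or.inl ⟨?_, hfi⟩⟩
                · rcases hp : p i with _ | β
                  · rfl
                  · exact absurd (by rw [hy0 i β hp, ← hy1 i β hp, hfi]) hy0i
                · intro h
                  rw [h] at hy0i
                  simp at hy0i
              · obtain ⟨k, hk, hk'⟩ := h1 y hy1 hF hy2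
                exact ⟨k, hk, Or.inr hk'⟩
            obtain ⟨i, hi, hi'⟩ := hex
            refine ⟨⟨⟨i, hi⟩, ⟨y i, hi'⟩⟩, ?_, hy2⟩
            intro k β hk
            by_cases hki : k = i
            · subst hki
              simp only [Function.update_self, Option.some.injEq] at hk
              exact hk
            · rw [Function.update_of_ne hki] at hk
              exact hy1 k β hk
          · rintro ⟨⟨⟨i, hi⟩, ⟨β, hβ⟩⟩, hy1, hy2⟩
            refine ⟨fun k γ hk => hy1 k γ ?_, hy2⟩
            have hki : k ≠ i := by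
              rintro rfl
              rw [hi] at hk
              cases hk
            simp only
            rw [Function.update_of_ne hki]
            exact hk
        have hstep : ∀ j : J, ∃ S : Set (Fin n → Option ℚ), S.Finite ∧
            closure (rl (Ar c f e (Function.update p j.1.1 (some j.2.1)))) = ⋃ q ∈ S, Vr q ∧
            ∀ q ∈ S, ∀ i β, q i = some β →
              Function.update p j.1.1 (some j.2.1) i = some β ∨ Exc (f i) β := by
          intro j
          refine ih _ ?_ _ rfl
          rw [← hm]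
          refine Finset.card_lt_card ?_
          rw [Finset.ssubset_iff_of_subset]
          · refine ⟨j.1.1, by simp [j.1.2], by simp⟩
          · intro k hk
            simp only [Finset.mem_filter, Finset.mem_univ, true_and] at hk ⊢
            by_cases hki : k = j.1.1
            · rw [hki]
              exact j.1.2
            · rwa [Function.update_of_ne hki] at hk
        choose S hS1 hS2 hS3 using hstep
        refine ⟨⋃ j, S j, finite_iUnion hS1, ?_, ?_⟩
        · rw [hunion, rl_iUnion, closure_iUnion_of_finite]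
          simp only [hS2]
          ext y
          simp only [mem_iUnion]
          constructor
          · rintro ⟨j, q, hq, hy⟩
            exact ⟨q, ⟨j, hq⟩, hy⟩
          · rintro ⟨q, ⟨j, hq⟩, hy⟩
            exact ⟨j, q, hq, hy⟩
        · intro q hq i β hi
          obtain ⟨j, hj⟩ := mem_iUnion.1 hq
          rcases hS3 j q hj i β hi with h | h
          · by_cases hij : i = j.1.1
            · subst hij
              rw [Function.update_self, Option.some.injEq] at h
              subst h
              exact Or.inr j.2.2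
            · rw [Function.update_of_ne hij] at h
              exact Or.inl h
          · exact Or.inr h

section Poly

open MvPolynomial

/-- the polynomial `c ∏ f_i(x_i)^{e_i}` -/
noncomputable def prodP (c : ℚ) (f : Fin n → Polynomial ℚ) (e : Fin n → ℕ) :
    MvPolynomial (Fin n) ℚ :=
  C c * ∏ i, Polynomial.aeval (X i) (f i) ^ e i

lemma prodP_eval (c : ℚ) (f : Fin n → Polynomial ℚ) (e : Fin n → ℕ) (x : Fin n → ℚ) :
    eval x (prodP c f e) = pV c f e x := by
  unfold prodP pV
  rw [map_mul, eval_C, map_prod]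
  congr 1
  refine Finset.prod_congr rfl fun i _ => ?_
  rw [map_pow]
  congr 1
  have h : (eval x : MvPolynomial (Fin n) ℚ →+* ℚ) (Polynomial.aeval (X i) (f i)) =
      Polynomial.aeval (x i) (f i) := by
    rw [Polynomial.aeval_def, Polynomial.hom_eval₂, eval_X, Polynomial.aeval_def]
    congr 1
    exact Subsingleton.elim _ _
  rw [h, Polynomial.coe_aeval_eq_eval]

end Poly

end Pool.Agent.D0H6.TC
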