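import Pool.Agent.D0H6.TC.Multi

/-!
# Sections at infinity (helper6)
-/

set_option autoImplicit false
set_option linter.unusedSimpArgs false

namespace Pool.Agent.D0H6.TC

open Set Filter Topology MvPolynomial
open Pool.Agent.TH729.SQ (rl aeval_cast)

variable {n : ℕ}

/-- the polynomial `a + b t + c t² + g³ t³`, `t` the variable number `0` -/
noncomputable def secP (a b c g : MvPolynomial (Fin n) ℚ) : MvPolynomial (Fin (n + 1)) ℚ :=
  rename Fin.succ a + rename Fin.succ b * X 0 + rename Fin.succ c * X 0 ^ 2 +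
    rename Fin.succ (g ^ 3) * X 0 ^ 3

lemma secP_eval (a b c g : MvPolynomial (Fin n) ℚ) (s : Fin (n + 1) → ℚ) :
    eval s (secP a b c g) = eval (fun k => s k.succ) a + eval (fun k => s k.succ) b * s 0 +
      eval (fun k => s k.succ) c * s 0 ^ 2 + eval (fun k => s k.succ) g ^ 3 * s 0 ^ 3 := by
  have h : ∀ p : MvPolynomial (Fin n) ℚ, eval s (rename Fin.succ p) =
      eval (fun k => s k.succ) p := fun p => by
    rw [eval_rename]
    rfl
  simp only [secP, map_add, map_mul, map_pow, h, eval_X]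

/-- the Hessian covariant at infinity -/
noncomputable def secH (b c g : MvPolynomial (Fin n) ℚ) : MvPolynomial (Fin n) ℚ :=
  c ^ 2 - 3 * b * g ^ 3
/-- the cubic covariant at infinity -/
noncomputable def secG (a b c g : MvPolynomial (Fin n) ℚ) : MvPolynomial (Fin n) ℚ :=
  2 * c ^ 3 - 9 * b * c * g ^ 3 + 27 * a * g ^ 6

lemma NdHG.neg {h g : ℚ} (H : NdHG h g) : NdHG h (-g) :=
  ⟨H.h0, neg_ne_zero.2 H.g0, by rw [neg_sq]; exact H.a, by rw [neg_sq]; exact H.b,
    by rw [neg_sq]; exact H.c⟩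

/-- **Density for a section at infinity.** -/
theorem sec_dense (a b c g : MvPolynomial (Fin n) ℚ) (z0 : Fin n → ℚ) (hg : eval z0 g ≠ 0)
    (hnd : NdHG (eval z0 (secH b c g)) (eval z0 (secG a b c g))) :
    Dense (rl (Cb (secP a b c g))) := by
  have h3 : ∀ z : Fin n → ℚ, eval z (3 : MvPolynomial (Fin n) ℚ) = 3 := fun z => map_ofNat _ 3
  have h2 : ∀ z : Fin n → ℚ, eval z (2 : MvPolynomial (Fin n) ℚ) = 2 := fun z => map_ofNat _ 2
  have h4 : ∀ z : Fin n → ℚ, eval z (4 : MvPolynomial (Fin n) ℚ) = 4 := fun z => map_ofNat _ 4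
  have h9 : ∀ z : Fin n → ℚ, eval z (9 : MvPolynomial (Fin n) ℚ) = 9 := fun z => map_ofNat _ 9
  have h27 : ∀ z : Fin n → ℚ, eval z (27 : MvPolynomial (Fin n) ℚ) = 27 := fun z => map_ofNat _ 27
  set H := secH b c g with hH
  set G := secG a b c g with hG
  set P : MvPolynomial (Fin n) ℚ :=
    g * (H * (G * ((G ^ 2 - 4 * H ^ 3) * ((G ^ 2 - 3 * H ^ 3) * (2 * G ^ 2 - 9 * H ^ 3))))) with hP
  have hPe : ∀ z : Fin n → ℚ, eval z P ≠ 0 ↔ eval z g ≠ 0 ∧ NdHG (eval z H) (eval z G) := by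
    intro z
    simp only [hP, map_mul, map_sub, map_pow, h2, h3, h4, h9, ne_eq, mul_eq_zero, not_or,
      sub_eq_zero]
    constructor
    · rintro ⟨h0, h1, h2, h3, h4, h5⟩
      exact ⟨h0, h1, h2, h3, h4, h5⟩
    · rintro ⟨h0, h1⟩
      exact ⟨h0, h1.h0, h1.g0, h1.a, h1.b, h1.c⟩
  have hav := avoid P (A := univ) (V := univ) (fun _ _ _ _ _ => mem_univ _) (by
    intro x _
    have : Dense (rl (univ : Set (Fin n → ℚ))) := by
      have h := DenseRange.piMap (f := fun (_ : Fin n) (q : ℚ) => (q : ℝ))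
        (fun _ => Rat.denseRange_cast)
      refine h.mono ?_
      rintro _ ⟨q, rfl⟩
      exact ⟨q, mem_univ _, rfl⟩
    exact this x) (s0 := z0) (mem_univ _) ((hPe z0).2 ⟨hg, hnd⟩)
  rw [Metric.dense_iff]
  intro x ε hε
  obtain ⟨_, ⟨z, ⟨_, hz⟩, rfl⟩, hdist⟩ := Metric.mem_closure_iff.1
    (hav (mem_univ fun k : Fin n => x k.succ)) ε hε
  obtain ⟨hgz, hN⟩ := (hPe z).1 hz
  have hden : Dense (rr (cub (eval z a) (eval z b) (eval z c) (eval z g ^ 3))) := by
    refine line_dense_inf hgz rfl ?_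
    have e1 : he (eval z a) (eval z b) (eval z c) (eval z g ^ 3) 0 1 = eval z H := by
      simp only [hH, secH, map_mul, map_sub, map_pow, h3]
      unfold he
      ring
    have e2 : ja (eval z a) (eval z b) (eval z c) (eval z g ^ 3) 0 1 = -eval z G := by
      simp only [hG, secG, map_mul, map_sub, map_add, map_pow, h2, h9, h27]
      unfold ja
      ring
    rw [e1, e2]
    exact hN.neg
  obtain ⟨_, ⟨t, ⟨w, hw⟩, rfl⟩, ht⟩ := Metric.mem_closure_iff.1 (hden (x 0)) ε hε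
  refine ⟨fun i => ((Fin.cons t z : Fin (n + 1) → ℚ) i : ℝ), ?_, ⟨Fin.cons t z, ⟨w, ?_⟩, rfl⟩⟩
  · rw [Metric.mem_ball, dist_comm, dist_pi_lt_iff hε]
    intro i
    refine Fin.cases ?_ (fun k => ?_) i
    · rw [Fin.cons_zero]
      exact ht
    · rw [Fin.cons_succ]
      exact (dist_pi_lt_iff hε).1 hdist k
  · rw [secP_eval]
    simp only [Fin.cons_zero, Fin.cons_succ]
    exact hw

end Pool.Agent.D0H6.TC
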