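import Pool.Agent.D0H6.TC.Prod

/-!
# Surfaces `w³ = f(x, y)` (helper6)
-/

set_option autoImplicit false
set_option linter.unusedSimpArgs false

namespace Pool.Agent.D0H6.TC

open Set Filter Topology MvPolynomial
open Pool.Agent.TH729.SQ (rl aeval_cast)

/-- the restriction of `f` to the line in the direction of the coordinate `k` -/
noncomputable def Lk (f : MvPolynomial (Fin 2) ℚ) (k : Fin 2) (z : Fin 2 → ℚ) : Polynomial ℚ :=
  lineP f z (Pi.single k 1)

/-- the point is good in the direction `k` -/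
def Gk (f : MvPolynomial (Fin 2) ℚ) (k : Fin 2) (z : Fin 2 → ℚ) : Prop :=
  Dz (Lk f k z) ∨ NdHG (Qh (Lk f k z)) (Qg (Lk f k z))

/-- the rational points at which `f` is a nonzero cube -/
def Sf (f : MvPolynomial (Fin 2) ℚ) : Set (Fin 2 → ℚ) :=
  {z | eval z f ≠ 0 ∧ ∃ w : ℚ, w ^ 3 = eval z f}

/-- the other coordinate -/
def oth (k : Fin 2) : Fin 2 := 1 - k

lemma oth_ne (k : Fin 2) : oth k ≠ k := by fin_cases k <;> decide

lemma eq_or_oth (k j : Fin 2) : j = k ∨ j = oth k := by fin_cases k <;> fin_cases j <;> decide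

lemma Lk_taylor (f : MvPolynomial (Fin 2) ℚ) (k : Fin 2) (z : Fin 2 → ℚ) (β : ℚ) :
    Polynomial.taylor β (Lk f k z) = Lk f k (fun i => z i + β * (Pi.single k 1 : Fin 2 → ℚ) i) := by
  refine Polynomial.funext fun t => ?_
  rw [Polynomial.taylor_eval]
  unfold Lk
  rw [lineP_eval, lineP_eval]
  congr 2
  funext i
  ring

lemma Lk_coeff_zero (f : MvPolynomial (Fin 2) ℚ) (k : Fin 2) (z : Fin 2 → ℚ) :
    (Lk f k z).coeff 0 = eval z f := by
  unfold Lk
  rw [Polynomial.coeff_zero_eq_eval_zero, lineP_eval, show (fun j => z j + 0 *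
    (Pi.single k 1 : Fin 2 → ℚ) j) = z by funext j; ring]

/-- a point with nondegenerate restriction on a line with nonvanishing discriminant -/
lemma exists_Ndg {f : MvPolynomial (Fin 2) ℚ} {k : Fin 2}
    (hdeg : ∀ z, (Lk f k z).natDegree ≤ 3) {z : Fin 2 → ℚ} (hz : ¬ Dz (Lk f k z)) :
    ∃ β : ℚ, Ndg (Lk f k (fun i => z i + β * (Pi.single k 1 : Fin 2 → ℚ) i)) := by
  set q := Lk f k z with hq
  have h0 := taylor_ds (hdeg z) 0
  rw [Polynomial.taylor_zero, ← hq] at h0
  have h1 : q.eval 0 ≠ 0 ∧ ds (q.coeff 0) (q.coeff 1) (q.coeff 2) (q.coeff 3) ≠ 0 := by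
    constructor
    · intro h
      apply hz
      rw [h] at h0
      unfold Dz
      linear_combination h0
    · intro h
      apply hz
      rw [h] at h0
      unfold Dz
      linear_combination h0
  have hq0 : q ≠ 0 := by
    intro h
    apply h1.1
    rw [h, Polynomial.eval_zero]
  have hfin : ({β : ℚ | ¬ OK q β} ∪ {β | q.IsRoot β}).Finite :=
    (notOK_finite (hdeg z)).union (Polynomial.finite_setOfPred_isRoot hq0)
  obtain ⟨β, hβ⟩ := hfin.exists_notMem
  simp only [mem_union, mem_ofPred_eq, not_or, not_not] at hβ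
  obtain ⟨hok, hroot⟩ := hβ
  have hroot : q.eval β ≠ 0 := hroot
  have h2 := taylor_ds (hdeg z) β
  rw [← hq] at h2
  refine ⟨β, ?_⟩
  rw [← Lk_taylor, ← hq]
  refine ⟨?_, ?_⟩
  · rw [Polynomial.coeff_zero_eq_eval_zero, Polynomial.taylor_eval, zero_add]
    exact hroot
  · refine hok.resolve_left fun h => ?_
    unfold Dz at h
    rw [h, sub_self] at h2
    have : -27 * q.eval β ^ 2 * ds (q.coeff 0) (q.coeff 1) (q.coeff 2) (q.coeff 3) ≠ 0 :=
      mul_ne_zero (mul_ne_zero (by norm_num) (pow_ne_zero _ hroot)) h1.2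
    exact this h2.symm

/-- the dense case -/
lemma dense_of_chain {f : MvPolynomial (Fin 2) ℚ} (hdeg : ∀ k z, (Lk f k z).natDegree ≤ 3)
    {k : Fin 2} {z : Fin 2 → ℚ} (hz : z ∈ Sf f) (hG : Gk f k z)
    (hch : (∀ t : ℚ, Dz (Lk f (oth k) (fun i => z i + t * (Pi.single k 1 : Fin 2 → ℚ) i))) ∨
      ∃ t : ℚ, Ndg (Lk f (oth k) (fun i => z i + t * (Pi.single k 1 : Fin 2 → ℚ) i))) :
    Dense (rl (Sf f)) := by
  set σ : Fin 2 → Fin 2 := ![k, oth k] with hσ
  have hinj : Function.Injective σ := by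
    intro i j hij
    fin_cases i <;> fin_cases j
    · rfl
    · exact absurd hij.symm (oth_ne k)
    · exact absurd hij (oth_ne k)
    · rfl
  set v : Fin 2 → Fin 2 → ℚ := fun j => Pi.single (σ j) 1 with hv
  have hlin : LinearIndependent ℚ v := by
    have h := (Pi.basisFun ℚ (Fin 2)).linearIndependent.comp σ hinj
    have e : v = (Pi.basisFun ℚ (Fin 2)) ∘ σ := by
      funext j
      simp [hv]
    rw [e]
    exact h
  have hpt : ∀ s : Fin 2 → ℚ, s 1 = 0 → (fun i => z i + ∑ j, s j * v j i) =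
      fun i => z i + s 0 * (Pi.single k 1 : Fin 2 → ℚ) i := by
    intro s hs
    funext i
    rw [Fin.sum_univ_two, hs, zero_mul, add_zero]
    rfl
  have hd := dense_Cb f z v hlin (fun j y => hdeg (σ j) y) hz.1 hz.2 (by
    intro j
    fin_cases j
    · -- the first direction
      have hs0 : ∀ s : Fin 2 → ℚ, (∀ j : Fin 2, (0 : Fin 2) ≤ j → s j = 0) →
          (fun i => z i + ∑ j, s j * v j i) = z := by
        intro s hs
        rw [hpt s (hs 1 (Fin.zero_le _)), hs 0 (le_refl _)]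
        funext i
        ring
      rcases hG with h | h
      · left
        intro s hs
        have e := hs0 s hs
        change Dz (lineP f (fun i => z i + ∑ j, s j * v j i) (v 0))
        rw [e]
        exact h
      · right
        refine ⟨0, fun _ _ => rfl, ?_⟩
        have e := hs0 0 (fun _ _ => rfl)
        change Ndg (lineP f (fun i => z i + ∑ j, (0 : Fin 2 → ℚ) j * v j i) (v 0))
        rw [e]
        refine ⟨?_, h⟩
        have := Lk_coeff_zero f k z
        unfold Lk at this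
        change (lineP f z (Pi.single k 1)).coeff 0 ≠ 0
        rw [this]
        exact hz.1
    · rcases hch with h | ⟨t, h⟩
      · left
        intro s hs
        change Dz (lineP f (fun i => z i + ∑ j, s j * v j i) (v 1))
        rw [hpt s (hs 1 (le_refl _))]
        exact h (s 0)
      · right
        refine ⟨![t, 0], ?_, ?_⟩
        · intro j hj
          fin_cases j
          · exact absurd hj (by decide)
          · rfl
        · change Ndg (lineP f (fun i => z i + ∑ j, (![t, 0] : Fin 2 → ℚ) j * v j i) (v 1))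
          rw [hpt ![t, 0] rfl]
          exact h)
  have hav := avoid f (A := Cb f) (V := univ) (fun _ _ _ _ _ => mem_univ _)
    (fun x _ => hd x) (s0 := z) (mem_univ _) hz.1
  intro x
  refine closure_mono ?_ (hav (mem_univ x))
  rintro _ ⟨s, ⟨⟨w, hw⟩, hs⟩, rfl⟩
  exact ⟨s, ⟨hs, w, hw⟩, rfl⟩

/-- finitely many lines -/
lemma fin_lines {f : MvPolynomial (Fin 2) ℚ} (hdeg : ∀ k z, (Lk f k z).natDegree ≤ 3)
    (hnd : ¬ Dense (rl (Sf f))) (k : Fin 2) :
    ∃ B : Set ℚ, B.Finite ∧ ∀ z ∈ Sf f, Gk f k z → z (oth k) ∈ B := by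
  classical
  by_cases hex : ∃ z ∈ Sf f, Gk f k z
  swap
  · push Not at hex
    exact ⟨∅, finite_empty, fun z hz hg => absurd hg (hex z hz)⟩
  obtain ⟨z1, hz1, hg1⟩ := hex
  -- a point where `NP` does not vanish
  set M := NP f (Pi.single (oth k) 1) with hM
  have hno : ∀ z ∈ Sf f, Gk f k z →
      (∃ t : ℚ, ¬ Dz (Lk f (oth k) (fun i => z i + t * (Pi.single k 1 : Fin 2 → ℚ) i))) ∧
      ∀ t : ℚ, eval (fun i => z i + t * (Pi.single k 1 : Fin 2 → ℚ) i) M = 0 := by
    intro z hz hg
    constructor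
    · by_contra h
      push Not at h
      exact hnd (dense_of_chain hdeg hz hg (Or.inl h))
    · intro t
      by_contra h
      exact hnd (dense_of_chain hdeg hz hg (Or.inr ⟨t, (NP_eval _ _ _).1 h⟩))
  obtain ⟨t1, ht1⟩ := (hno z1 hz1 hg1).1
  obtain ⟨β1, hβ1⟩ := exists_Ndg (hdeg (oth k)) ht1
  set p : Fin 2 → ℚ := fun i => (fun i => z1 i + t1 * (Pi.single k 1 : Fin 2 → ℚ) i) i +
    β1 * (Pi.single (oth k) 1 : Fin 2 → ℚ) i with hp
  have hMp : eval p M ≠ 0 := (NP_eval _ _ _).2 hβ1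
  -- the line through `p`
  set m : Polynomial ℚ := lineP M (Function.update p (oth k) 0) (Pi.single (oth k) 1) with hm
  have hm0 : m ≠ 0 := by
    intro h
    apply hMp
    have h1 : m.eval (p (oth k)) = 0 := by rw [h, Polynomial.eval_zero]
    rw [hm, lineP_eval] at h1
    rw [← h1]
    congr 2
    funext i
    rcases eq_or_oth k i with h | h
    · subst h
      rw [Function.update_of_ne (oth_ne _).symm, Pi.single_eq_of_ne (oth_ne _).symm]
      ring
    · subst h
      rw [Function.update_self, Pi.single_eq_same]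
      ring
  refine ⟨{β | m.IsRoot β}, Polynomial.finite_setOfPred_isRoot hm0, ?_⟩
  intro z hz hg
  have h2 := (hno z hz hg).2 (p k - z k)
  change m.eval (z (oth k)) = 0
  rw [hm, lineP_eval]
  refine Eq.trans ?_ h2
  congr 2
  funext i
  rcases eq_or_oth k i with h | h
  · subst h
    rw [Function.update_of_ne (oth_ne _).symm, Pi.single_eq_of_ne (oth_ne _).symm,
      Pi.single_eq_same]
    ring
  · subst h
    rw [Function.update_self, Pi.single_eq_same, Pi.single_eq_of_ne (oth_ne _)]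
    ring

/-- one line: dense or finite -/
lemma line_alt {q : Polynomial ℚ} (hq : q.natDegree ≤ 3) :
    Dense (rr {t : ℚ | q.eval t ≠ 0 ∧ ∃ w : ℚ, w ^ 3 = q.eval t}) ∨
      {t : ℚ | q.eval t ≠ 0 ∧ ∃ w : ℚ, w ^ 3 = q.eval t}.Finite := by
  by_cases h : ∃ t : ℚ, (q.eval t ≠ 0 ∧ ∃ w : ℚ, w ^ 3 = q.eval t) ∧ OK q t
  · left
    obtain ⟨t, ⟨h0, hc⟩, hok⟩ := h
    have := pow_line' hq (K := 1) (β := t) (e := 1) (by simpa using h0) (by simpa using hc) hok
    simpa using this
  · right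
    push Not at h
    exact (notOK_finite hq).subset fun t ht => h t ht

/-- the doubly degenerate points -/
def Tf (f : MvPolynomial (Fin 2) ℚ) : Set (Fin 2 → ℚ) := {z | ∀ k, ¬ Gk f k z}

/-- the points of `Sf` on a coordinate line -/
lemma fibre_alt {f : MvPolynomial (Fin 2) ℚ} (hdeg : ∀ k z, (Lk f k z).natDegree ≤ 3) (k : Fin 2)
    (β : ℚ) :
    closure (rl {z | z ∈ Sf f ∧ z (oth k) = β}) = {y : Fin 2 → ℝ | y (oth k) = β} ∨
      {z | z ∈ Sf f ∧ z (oth k) = β}.Finite := by
  set z0 : Fin 2 → ℚ := Pi.single (oth k) β with hz0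
  set q := Lk f k z0 with hq
  have hpt : ∀ z : Fin 2 → ℚ, z (oth k) = β →
      (fun i => z0 i + z k * (Pi.single k 1 : Fin 2 → ℚ) i) = z := by
    intro z hz
    funext i
    rcases eq_or_oth k i with h | h
    · subst h
      rw [hz0, Pi.single_eq_same, Pi.single_eq_of_ne (oth_ne _).symm]
      ring
    · subst h
      rw [hz0, Pi.single_eq_same, Pi.single_eq_of_ne (oth_ne _), hz]
      ring
  have hev : ∀ z : Fin 2 → ℚ, z (oth k) = β → q.eval (z k) = eval z f := by
    intro z hz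
    rw [hq]
    unfold Lk
    rw [lineP_eval, hpt z hz]
  rcases line_alt (hdeg k z0) with h | h
  · left
    apply Subset.antisymm
    · refine closure_minimal ?_ (isClosed_eq (continuous_apply _) continuous_const)
      rintro _ ⟨z, ⟨_, hz⟩, rfl⟩
      simp only [mem_ofPred_eq, hz]
    · intro y hy
      rw [Metric.mem_closure_iff]
      intro ε hε
      obtain ⟨_, ⟨t, ht, rfl⟩, hdist⟩ := Metric.mem_closure_iff.1 (h (y k)) ε hε
      set z : Fin 2 → ℚ := Function.update z0 k t with hz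
      have hzo : z (oth k) = β := by
        rw [hz, Function.update_of_ne (oth_ne _), hz0, Pi.single_eq_same]
      have hzk : z k = t := by rw [hz, Function.update_self]
      refine ⟨_, ⟨z, ⟨⟨?_, ?_⟩, hzo⟩, rfl⟩, ?_⟩
      · rw [← hev z hzo, hzk]
        exact ht.1
      · rw [← hev z hzo, hzk]
        exact ht.2
      · rw [dist_pi_lt_iff hε]
        intro i
        rcases eq_or_oth k i with h | h
        · subst h
          rw [hzk]
          exact hdist
        · subst h
          rw [hzo, show y (oth k) = β from hy, dist_self]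
          exact hε
  · right
    refine Finite.of_finite_image (f := fun z : Fin 2 → ℚ => z k) ?_ ?_
    · refine h.subset ?_
      rintro _ ⟨z, ⟨⟨h1, h2⟩, hz⟩, rfl⟩
      simp only [mem_ofPred_eq]
      rw [hev z hz]
      exact ⟨h1, h2⟩
    · rintro z ⟨_, hz⟩ z' ⟨_, hz'⟩ h
      rw [← hpt z hz, ← hpt z' hz']
      simp only at h
      rw [h]

/-- **The closure for surfaces.** -/
theorem surf_structure {f : MvPolynomial (Fin 2) ℚ} (hdeg : ∀ k z, (Lk f k z).natDegree ≤ 3)
    (hnd : ¬ Dense (rl (Sf f))) :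
    ∃ (B : Fin 2 → Set ℚ) (E : Set (Fin 2 → ℚ)), (∀ k, (B k).Finite) ∧ E.Finite ∧
      closure (rl (Sf f)) = closure (rl (Sf f ∩ Tf f)) ∪ rl E ∪
        {y : Fin 2 → ℝ | ∃ k, ∃ β ∈ B k, y k = β} := by
  classical
  choose B0 hB0 hB0' using fun k => fin_lines hdeg hnd k
  -- the lines with dense fibres and the lines with finitely many points
  set B : Fin 2 → Set ℚ := fun k => {β ∈ B0 (oth k) |
    closure (rl {z | z ∈ Sf f ∧ z k = β}) = {y : Fin 2 → ℝ | y k = β}} with hB
  set E : Set (Fin 2 → ℚ) := ⋃ k, ⋃ β ∈ {β ∈ B0 (oth k) | {z | z ∈ Sf f ∧ z k = β}.Finite},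
    {z | z ∈ Sf f ∧ z k = β} with hE
  have hoo : ∀ k : Fin 2, oth (oth k) = k := fun k => by fin_cases k <;> rfl
  have hBf : ∀ k, (B k).Finite := fun k => (hB0 (oth k)).subset fun β hβ => hβ.1
  have hEf : E.Finite := by
    refine finite_iUnion fun k => ?_
    refine ((hB0 (oth k)).subset fun β hβ => hβ.1).biUnion fun β hβ => hβ.2
  have hcov : ∀ z ∈ Sf f, z ∈ Tf f ∨ z ∈ E ∨ ∃ k, z k ∈ B k := by
    intro z hz
    by_cases hT : z ∈ Tf f
    · exact Or.inl hT
    right
    simp only [Tf, mem_ofPred_eq, not_forall, not_not] at hT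
    obtain ⟨k, hk⟩ := hT
    have h1 := hB0' k z hz hk
    rcases fibre_alt hdeg k (z (oth k)) with h | h
    · right
      refine ⟨oth k, ?_, h⟩
      rw [hoo]
      exact h1
    · left
      refine mem_iUnion.2 ⟨oth k, mem_iUnion₂.2 ⟨z (oth k), ⟨?_, h⟩, hz, rfl⟩⟩
      rw [hoo]
      exact h1
  refine ⟨B, E, hBf, hEf, ?_⟩
  have hclosed : IsClosed {y : Fin 2 → ℝ | ∃ k, ∃ β ∈ B k, y k = β} := by
    have : {y : Fin 2 → ℝ | ∃ k, ∃ β ∈ B k, y k = β} =
        ⋃ k, ⋃ β ∈ B k, {y : Fin 2 → ℝ | y k = (β : ℝ)} := by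
      ext y
      simp
    rw [this]
    refine isClosed_iUnion_of_finite fun k => (hBf k).isClosed_biUnion fun β _ => ?_
    exact isClosed_eq (continuous_apply _) continuous_const
  have hEc : IsClosed (rl E) := by
    have : (rl E).Finite := by
      have : rl E = (fun r : Fin 2 → ℚ => fun i => (r i : ℝ)) '' E := by
        ext y
        constructor
        · rintro ⟨r, hr, rfl⟩
          exact ⟨r, hr, rfl⟩
        · rintro ⟨r, hr, rfl⟩
          exact ⟨r, hr, rfl⟩
      rw [this]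
      exact hEf.image _
    exact this.isClosed
  apply Subset.antisymm
  · refine closure_minimal ?_ ((isClosed_closure.union hEc).union hclosed)
    rintro _ ⟨z, hz, rfl⟩
    rcases hcov z hz with h | h | ⟨k, h⟩
    · exact Or.inl (Or.inl (subset_closure ⟨z, ⟨hz, h⟩, rfl⟩))
    · exact Or.inl (Or.inr ⟨z, h, rfl⟩)
    · exact Or.inr ⟨k, z k, h, rfl⟩
  · rintro y ((hy | hy) | ⟨k, β, hβ, hy⟩)
    · refine closure_mono ?_ hy
      rintro _ ⟨z, hz, rfl⟩
      exact ⟨z, hz.1, rfl⟩
    · obtain ⟨z, hz, rfl⟩ := hy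
      refine subset_closure ⟨z, ?_, rfl⟩
      obtain ⟨k, hk⟩ := mem_iUnion.1 hz
      obtain ⟨β, _, hk⟩ := mem_iUnion₂.1 hk
      exact hk.1
    · have : y ∈ closure (rl {z | z ∈ Sf f ∧ z k = β}) := by
        rw [hβ.2]
        exact hy
      refine closure_mono ?_ this
      rintro _ ⟨z, hz, rfl⟩
      exact ⟨z, hz.1, rfl⟩

end Pool.Agent.D0H6.TC
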